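import Mathlib

/-! Decision tree checker for small graph facts: the computable side.  All
functions are written with the kernel-accelerated operations on `ℕ`. -/

namespace Pool.Agent.R59.NS

/-- Decision trees: leaves carry a code, branches carry the pair `16*i+j`. -/
inductive Tr : Type
  | L : ℕ → Tr
  | B : ℕ → Tr → Tr → Tr

/-- literal bit for `i` adjacent to `j` -/
def l1 (i j : ℕ) : ℕ := Nat.shiftLeft 2 (Nat.add (Nat.mul 32 i) (Nat.mul 2 j))
/-- literal bit for `i` not adjacent to `j` -/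
def l0 (i j : ℕ) : ℕ := Nat.shiftLeft 1 (Nat.add (Nat.mul 32 i) (Nat.mul 2 j))

/-- remove the bits of `m` from `x` -/
def rem (m x : ℕ) : ℕ := Nat.xor (Nat.lor x m) m

/-- mask of both orientations of the non-adjacency literal of the pair `e` -/
def em0 (e : ℕ) : ℕ :=
  Nat.lor (l0 (Nat.mod (Nat.div e 16) 16) (Nat.mod e 16))
    (l0 (Nat.mod e 16) (Nat.mod (Nat.div e 16) 16))

/-- mask of both orientations of the adjacency literal of the pair `e` -/
def em1 (e : ℕ) : ℕ :=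
  Nat.lor (l1 (Nat.mod (Nat.div e 16) 16) (Nat.mod e 16))
    (l1 (Nat.mod e 16) (Nat.mod (Nat.div e 16) 16))

/-- combination at a branch -/
def comb (e n1 n0 : ℕ) : ℕ :=
  Nat.lor (rem (em1 e) n1) (rem (em0 e) n0)

/-- literals needed -/
noncomputable def need (leaf : ℕ → ℕ) (t : Tr) : ℕ :=
  Tr.rec (motive := fun _ => ℕ) leaf (fun e _ _ n1 n0 => comb e n1 n0) t

/-- digit -/
def dg (c k : ℕ) : ℕ := Nat.land (Nat.shiftRight c k) 15

def lor3 (a b c : ℕ) : ℕ := Nat.lor a (Nat.lor b c)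

/-- vertex bit -/
def vb (a : ℕ) : ℕ := Nat.shiftLeft 1 a

/-- literals needed for a class -/
def clsN (c : ℕ) : ℕ :=
  let t := dg c 0
  let x := dg c 4
  let y := dg c 8
  let z := dg c 12
  let w := dg c 16
  cond (Nat.beq t 1) 0 <|
  cond (Nat.beq t 2) (lor3 (l1 x y) (l1 x z) (l1 y z)) <|
  cond (Nat.beq t 3) (Nat.lor (l0 x z) (l0 y z)) <|
  cond (Nat.beq t 4) (Nat.lor (lor3 (l1 x y) (l1 x z) (l1 y z)) (lor3 (l1 x w) (l1 y w) (l1 z w))) <|
  cond (Nat.beq t 5) (Nat.lor (lor3 (l1 x y) (l1 x z) (l1 y z)) (lor3 (l0 x w) (l0 y w) (l0 z w))) <|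
  cond (Nat.beq t 6) (Nat.lor (Nat.lor (l0 x z) (l0 x w)) (Nat.lor (l0 y z) (l0 y w))) 2

/-- vertices covered by a class -/
def clsV (c : ℕ) : ℕ :=
  let t := dg c 0
  let x := dg c 4
  let y := dg c 8
  let z := dg c 12
  let w := dg c 16
  cond (Nat.ble t 1) (Nat.lor (vb x) (vb y)) <|
  cond (Nat.ble t 3) (lor3 (vb x) (vb y) (vb z)) <|
  Nat.lor (lor3 (vb x) (vb y) (vb z)) (vb w)

/-- literals of `k` consecutive classes in the code `c` -/
noncomputable def partN (k : ℕ) (c : ℕ) : ℕ :=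
  Nat.rec (motive := fun _ => ℕ) 0
    (fun i r => Nat.lor (clsN (Nat.shiftRight c (Nat.mul 20 i))) r) k

/-- vertices of `k` consecutive classes in the code `c` -/
noncomputable def partV (k : ℕ) (c : ℕ) : ℕ :=
  Nat.rec (motive := fun _ => ℕ) 0
    (fun i r => Nat.lor (clsV (Nat.shiftRight c (Nat.mul 20 i))) r) k

noncomputable def leafPart (full k c : ℕ) : ℕ :=
  cond (Nat.beq (partV k c) full) (partN k c) 2

/-- literals of a 5-set -/
def bigN (c : ℕ) : ℕ :=
  let t := dg c 0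
  let x := dg c 4
  let y := dg c 8
  let z := dg c 12
  let w := dg c 16
  let u := dg c 20
  cond (Nat.beq t 7) (Nat.lor (Nat.lor (lor3 (l1 x y) (l1 x z) (l1 y z)) (lor3 (l1 x w) (l1 y w) (l1 z w)))
     (Nat.lor (lor3 (l1 x u) (l1 y u) (l1 z u)) (l1 w u))) <|
  cond (Nat.beq t 8) (Nat.lor (Nat.lor (lor3 (l1 x y) (l1 x z) (l1 y z)) (lor3 (l1 x w) (l1 y w) (l1 z w)))
     (Nat.lor (lor3 (l0 x u) (l0 y u) (l0 z u)) (l0 w u))) <|
  cond (Nat.beq t 9) (lor3 (lor3 (l1 x y) (l1 x z) (l1 y z)) (lor3 (l0 x w) (l0 y w) (l0 z w))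
     (lor3 (l0 x u) (l0 y u) (l0 z u))) <|
  cond (Nat.beq t 10) (Nat.lor (Nat.lor (Nat.lor (l0 x z) (l0 x w)) (Nat.lor (l0 y z) (l0 y w)))
     (Nat.lor (Nat.lor (l0 x u) (l0 y u)) (Nat.lor (l0 z u) (l0 w u)))) 2

/-- five distinct vertices inside `full` forming a cluster graph -/
def leafBig5 (full c : ℕ) : ℕ :=
  let m := Nat.lor (Nat.lor (lor3 (vb (dg c 4)) (vb (dg c 8)) (vb (dg c 12))) (vb (dg c 16))) (vb (dg c 20))
  let s := Nat.add (Nat.add (Nat.add (Nat.add (vb (dg c 4)) (vb (dg c 8))) (vb (dg c 12))) (vb (dg c 16))) (vb (dg c 20))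
  cond (Nat.beq m s) (cond (Nat.beq (Nat.lor m full) full) (bigN c) 2) 2

/-- four distinct vertices inside `full` forming a typed cluster graph -/
def leafBig4 (full c : ℕ) : ℕ :=
  let m := Nat.lor (lor3 (vb (dg c 4)) (vb (dg c 8)) (vb (dg c 12))) (vb (dg c 16))
  let s := Nat.add (Nat.add (Nat.add (vb (dg c 4)) (vb (dg c 8))) (vb (dg c 12))) (vb (dg c 16))
  cond (Nat.beq m s) (cond (Nat.beq (Nat.lor m full) full) (cond (Nat.ble 4 (dg c 0)) (clsN c) 2) 2) 2

/-- a complete graph on four vertices inside `full` -/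
def leafK4 (full c : ℕ) : ℕ :=
  let m := Nat.lor (lor3 (vb (dg c 4)) (vb (dg c 8)) (vb (dg c 12))) (vb (dg c 16))
  cond (Nat.beq (Nat.lor m full) full) (cond (Nat.beq 4 (dg c 0)) (clsN c) 2) 2

/-- three distinct vertices inside `full` forming a typed cluster graph -/
def leafBig3 (full c : ℕ) : ℕ :=
  let m := lor3 (vb (dg c 4)) (vb (dg c 8)) (vb (dg c 12))
  let s := Nat.add (Nat.add (vb (dg c 4)) (vb (dg c 8))) (vb (dg c 12))
  cond (Nat.beq m s) (cond (Nat.beq (Nat.lor m full) full)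
    (cond (Nat.ble 2 (dg c 0)) (cond (Nat.ble (dg c 0) 3) (clsN c) 2) 2) 2) 2

/-- order leaf: agreement of `q` and `q+1` on the vertices `base + t` for `k < t < m`,
while `q` is adjacent to `base + k` and `q + 1` is not -/
noncomputable def ordN (base q k pat m : ℕ) : ℕ :=
  Nat.lor (Nat.lor (l1 q (Nat.add base k)) (l0 (Nat.add q 1) (Nat.add base k))) <|
  Nat.rec (motive := fun _ => ℕ) 0
    (fun t r => Nat.lor
      (cond (Nat.ble t k) 0
        (cond (Nat.beq (Nat.land (Nat.shiftRight pat t) 1) 1)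
          (Nat.lor (l1 q (Nat.add base t)) (l1 (Nat.add q 1) (Nat.add base t)))
          (Nat.lor (l0 q (Nat.add base t)) (l0 (Nat.add q 1) (Nat.add base t))))) r) m

noncomputable def leafOrd (base m q1 q2 c : ℕ) : ℕ :=
  cond (Nat.ble q1 (dg c 0)) (cond (Nat.ble (dg c 0) q2)
    (cond (Nat.ble (Nat.add (dg c 4) 1) m) (ordN base (dg c 0) (dg c 4) (Nat.shiftRight c 8) m) 2) 2) 2

/-- full code literals: bit `6 q + r` tells whether `o1 + q` and `o2 + r` are adjacent -/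
noncomputable def codeN (o1 o2 c : ℕ) : ℕ :=
  Nat.rec (motive := fun _ => ℕ) 0
    (fun t r => Nat.lor
      (cond (Nat.beq (Nat.land (Nat.shiftRight c t) 1) 1)
          (l1 (Nat.add o1 (Nat.div t 6)) (Nat.add o2 (Nat.mod t 6)))
          (l0 (Nat.add o1 (Nat.div t 6)) (Nat.add o2 (Nat.mod t 6)))) r) 24

/-- both orientations of the full code literals -/
noncomputable def codeS (o1 o2 c : ℕ) : ℕ :=
  Nat.rec (motive := fun _ => ℕ) 0
    (fun t r => Nat.lor
      (cond (Nat.beq (Nat.land (Nat.shiftRight c t) 1) 1)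
          (Nat.lor (l1 (Nat.add o1 (Nat.div t 6)) (Nat.add o2 (Nat.mod t 6)))
            (l1 (Nat.add o2 (Nat.mod t 6)) (Nat.add o1 (Nat.div t 6))))
          (Nat.lor (l0 (Nat.add o1 (Nat.div t 6)) (Nat.add o2 (Nat.mod t 6)))
            (l0 (Nat.add o2 (Nat.mod t 6)) (Nat.add o1 (Nat.div t 6))))) r) 24

/-- complete adjacency information of the vertices `o, …, o+n-1` from the bits of `m` -/
noncomputable def matN (o n m : ℕ) : ℕ :=
  Nat.rec (motive := fun _ => ℕ) 0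
    (fun t r => Nat.lor
      (cond (Nat.beq (Nat.div t n) (Nat.mod t n)) 0
        (cond (Nat.beq (Nat.land (Nat.shiftRight m t) 1) 1)
          (l1 (Nat.add o (Nat.div t n)) (Nat.add o (Nat.mod t n)))
          (l0 (Nat.add o (Nat.div t n)) (Nat.add o (Nat.mod t n))))) r) (Nat.mul n n)

/-- adjacency information of the vertices `p 0, …, p 5` (digits of `c`) from the bits of `m` -/
noncomputable def isoN (m c : ℕ) : ℕ :=
  Nat.rec (motive := fun _ => ℕ) 0
    (fun t r => Nat.lor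
      (cond (Nat.beq (Nat.div t 6) (Nat.mod t 6)) 0
        (cond (Nat.beq (Nat.land (Nat.shiftRight m t) 1) 1)
          (l1 (dg c (Nat.mul 4 (Nat.div t 6))) (dg c (Nat.mul 4 (Nat.mod t 6))))
          (l0 (dg c (Nat.mul 4 (Nat.div t 6))) (dg c (Nat.mul 4 (Nat.mod t 6)))))) r) 36

noncomputable def isoV (c : ℕ) : ℕ :=
  Nat.rec (motive := fun _ => ℕ) 0
    (fun t r => Nat.lor (vb (dg c (Nat.mul 4 t))) r) 6

/-- the three critical graphs on six vertices, as `6 × 6` bit matrices -/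
def rr (h : ℕ) : ℕ :=
  cond (Nat.beq h 0) 20087389022 (cond (Nat.beq h 1) 31735035774 27473556350)

noncomputable def leafIso (c : ℕ) : ℕ :=
  cond (Nat.ble (dg c 0) 2)
    (cond (Nat.beq (isoV (Nat.shiftRight c 4)) 63) (isoN (rr (dg c 0)) (Nat.shiftRight c 4)) 2) 2

noncomputable def mem (L : List ℕ) (c : ℕ) : Bool :=
  List.rec (motive := fun _ => Bool) false (fun a _ r => cond (Nat.beq a c) true r) L

/-! ### Leaf functions -/

def md (c : ℕ) : ℕ := Nat.land c 15

noncomputable def leafT1 (c : ℕ) : ℕ :=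
  cond (Nat.beq (md c) 1) (leafBig3 31 (Nat.shiftRight c 4)) 2

noncomputable def leafT2 (c : ℕ) : ℕ :=
  cond (Nat.beq (md c) 1) (leafBig4 1023 (Nat.shiftRight c 4)) <|
  cond (Nat.beq (md c) 2) (leafOrd 0 3 3 8 (Nat.shiftRight c 4)) 2

noncomputable def leafT4 (c : ℕ) : ℕ :=
  cond (Nat.beq (md c) 0) (leafPart 63 2 (Nat.shiftRight c 4)) <|
  cond (Nat.beq (md c) 1) (leafBig4 63 (Nat.shiftRight c 4)) <|
  cond (Nat.beq (md c) 5) (leafIso (Nat.shiftRight c 4)) 2

noncomputable def leafT5 (c : ℕ) : ℕ :=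
  cond (Nat.beq (md c) 0) (leafPart 511 3 (Nat.shiftRight c 4)) <|
  cond (Nat.beq (md c) 1) (leafBig4 511 (Nat.shiftRight c 4)) 2

noncomputable def leafT6 (c : ℕ) : ℕ :=
  cond (Nat.beq (md c) 0) (leafPart 1023 3 (Nat.shiftRight c 4)) <|
  cond (Nat.beq (md c) 1) (leafBig5 1023 (Nat.shiftRight c 4)) <|
  cond (Nat.beq (md c) 3) (leafK4 1023 (Nat.shiftRight c 4)) 2

noncomputable def leafCL (L : List ℕ) (c : ℕ) : ℕ :=
  cond (Nat.beq (md c) 0) (leafPart 1023 3 (Nat.shiftRight c 4)) <|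
  cond (Nat.beq (md c) 1) (leafBig5 1023 (Nat.shiftRight c 4)) <|
  cond (Nat.beq (md c) 2) (leafOrd 4 6 0 2 (Nat.shiftRight c 4)) <|
  cond (Nat.beq (md c) 4)
    (cond (mem L (Nat.shiftRight c 4)) (codeN 0 4 (Nat.shiftRight c 4)) 2) 2

noncomputable def leafT7 (c : ℕ) : ℕ :=
  cond (Nat.beq (md c) 0) (leafPart 16383 4 (Nat.shiftRight c 4)) <|
  cond (Nat.beq (md c) 1) (leafBig5 16383 (Nat.shiftRight c 4)) 2

/-- the check: all needed literals are among the known ones -/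
noncomputable def chk (leaf : ℕ → ℕ) (t : Tr) (init : ℕ) : Bool :=
  Nat.beq (Nat.lor (need leaf t) init) init

noncomputable def initT7 (h c c' : ℕ) : ℕ :=
  Nat.lor (Nat.lor (Nat.lor (matN 0 4 65535) (matN 4 4 65535)) (matN 8 6 (rr h)))
    (Nat.lor (codeS 0 8 c) (codeS 4 8 c'))

noncomputable def chkRow (h c : ℕ) (cs : List ℕ) : List Tr → Bool :=
  List.rec (motive := fun _ => List Tr → Bool) (fun _ => true)
    (fun c' _ ih row => List.rec (motive := fun _ => Bool) false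
      (fun t ts _ => cond (chk leafT7 t (initT7 h c c')) (ih ts) false) row) cs

noncomputable def chkAll (h : ℕ) (cs : List ℕ) : List (List Tr) → Bool :=
  List.rec (motive := fun _ => List (List Tr) → Bool) (fun _ => true)
    (fun c cs ih rows => List.rec (motive := fun _ => Bool) false
      (fun r rs _ => cond (chkRow h c (c :: cs) r) (ih rs) false) rows) cs

end Pool.Agent.R59.NS
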