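import Pool.Agent.R59.NS.DataC2

namespace Pool.Agent.R59.NS

open Tr

noncomputable def row2_0 : List Tr :=
  [L 0x3873309403cb626da5160, L 0x3873309503cb626da4160, L 0x3873309403cb626da5160, L
  0x3873309603cb526da4160, L 0x387331a613cb526d94060]

noncomputable def row2_1 : List Tr :=
  [L 0x3873319513cb626da4060, L 0x3873319413cb626da5060, L 0x3873319613cb526da4060, L
  0x387330a603cb526d94160]

noncomputable def row2_2 : List Tr :=
  [L 0x3873309403cb626da5160, L 0x3873309603cb526da4160, L 0x387331a613cb526d94060]

noncomputable def row2_3 : List Tr :=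
  [L 0x3873329623cb516da4060, L 0x387331b613c9526da4060]

noncomputable def row2_4 : List Tr :=
  [L 0x387332a623cb516d94060]

noncomputable def rows2 : List (List Tr) :=
  [row2_0, row2_1, row2_2, row2_3, row2_4]

theorem chkP2 : chkAll 2 listC2 rows2 = true := by
  decide +kernel

end Pool.Agent.R59.NS
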