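import Mathlib

namespace Pool.Agent.R59.NS

/-- `c` is a subcolouring of `G`: no colour class contains an induced path on three vertices
(equivalently, every colour class induces a disjoint union of complete graphs). -/
def IsSubcolouring {V : Type*} (G : SimpleGraph V) {k : ℕ} (c : V → Fin k) : Prop :=
  ∀ x y z : V, c x = c y → c y = c z → G.Adj x y → G.Adj y z → x ≠ z → G.Adj x z

/-- The subchromatic number: the least `k` such that `G` has a subcolouring with `k` colours. -/
noncomputable def subchromatic {V : Type*} (G : SimpleGraph V) : ℕ :=
  sInf {k : ℕ | ∃ c : V → Fin k, IsSubcolouring G c}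

end Pool.Agent.R59.NS
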