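import Pool.Agent.R59.NS.Sem3

/-! Labellings of finite sets and covers by cluster sets. -/

namespace Pool.Agent.R59.NS

variable {V : Type*} {G : SimpleGraph V}

/-- `v 0, …, v (n-1)` enumerates `U` without repetition -/
structure Lab (U : Finset V) (n : ℕ) (v : ℕ → V) : Prop where
  mem : ∀ i < n, v i ∈ U
  inj : ∀ i < n, ∀ j < n, v i = v j → i = j
  surj : ∀ x ∈ U, ∃ i < n, v i = x

theorem Lab.card {U : Finset V} {n : ℕ} {v : ℕ → V} (h : Lab U n v) : U.card = n := by
  classical
  have h1 : U = (Finset.range n).image v := by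
    ext x
    rw [Finset.mem_image]
    constructor
    · intro hx
      obtain ⟨i, hi, rfl⟩ := h.surj x hx
      exact ⟨i, Finset.mem_range.2 hi, rfl⟩
    · rintro ⟨i, hi, rfl⟩
      exact h.mem i (Finset.mem_range.1 hi)
  rw [h1, Finset.card_image_of_injOn, Finset.card_range]
  intro i hi j hj hij
  exact h.inj i (Finset.mem_range.1 hi) j (Finset.mem_range.1 hj) hij

theorem exists_sorted (ky : V → ℕ) : ∀ (n : ℕ) (U : Finset V), U.card = n + 1 →
    ∃ v, Lab U (n + 1) v ∧ ∀ i j, i ≤ j → j < n + 1 → ky (v i) ≤ ky (v j) := by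
  classical
  intro n
  induction n with
  | zero =>
    intro U hU
    obtain ⟨x, rfl⟩ := Finset.card_eq_one.1 hU
    refine ⟨fun _ => x, ⟨?_, ?_, ?_⟩, ?_⟩
    · intro i _; simp
    · intro i hi j hj _; omega
    · intro y hy; exact ⟨0, by omega, (Finset.mem_singleton.1 hy).symm⟩
    · intro i j _ _; exact le_refl _
  | succ n ih =>
    intro U hU
    have hne : U.Nonempty := by rw [← Finset.card_pos]; omega
    obtain ⟨x, hx, hmax⟩ := Finset.exists_max_image U ky hne
    obtain ⟨w, hw, hs⟩ := ih (U.erase x) (by rw [Finset.card_erase_of_mem hx]; omega)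
    refine ⟨fun i => if i = n + 1 then x else w i, ⟨?_, ?_, ?_⟩, ?_⟩
    · intro i hi
      by_cases h : i = n + 1
      · simp only [h, if_true]; exact hx
      · simp only [h, if_false]
        exact Finset.mem_of_mem_erase (hw.mem i (by omega))
    · intro i hi j hj hij
      by_cases h : i = n + 1
      · by_cases h' : j = n + 1
        · omega
        · simp only [h, h', if_true, if_false] at hij
          exact absurd hij.symm (Finset.ne_of_mem_erase (hw.mem j (by omega)))
      · by_cases h' : j = n + 1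
        · simp only [h, h', if_true, if_false] at hij
          exact absurd hij (Finset.ne_of_mem_erase (hw.mem i (by omega)))
        · simp only [h, h', if_false] at hij
          exact hw.inj i (by omega) j (by omega) hij
    · intro y hy
      by_cases h : y = x
      · exact ⟨n + 1, by omega, by simp [h]⟩
      · obtain ⟨i, hi, rfl⟩ := hw.surj y (Finset.mem_erase.2 ⟨h, hy⟩)
        exact ⟨i, by omega, by simp only [show i ≠ n + 1 by omega, if_false]⟩
    · intro i j hij hj
      by_cases h' : j = n + 1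
      · simp only [h', if_true]
        by_cases h : i = n + 1
        · simp only [h, if_true]; exact le_refl _
        · simp only [h, if_false]
          exact hmax _ (Finset.mem_of_mem_erase (hw.mem i (by omega)))
      · have h : i ≠ n + 1 := by omega
        simp only [h, h', if_false]
        exact hs i j hij (by omega)

theorem exists_lab {U : Finset V} {n : ℕ} (h : U.card = n + 1) : ∃ v, Lab U (n + 1) v := by
  obtain ⟨v, hv, -⟩ := exists_sorted (fun _ => 0) n U h
  exact ⟨v, hv⟩

/-- concatenation of labellings -/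
def cat (n : ℕ) (v w : ℕ → V) : ℕ → V := fun i => if i < n then v i else w (i - n)

theorem cat_lt {n : ℕ} {v w : ℕ → V} {i : ℕ} (h : i < n) : cat n v w i = v i := by
  unfold cat; rw [if_pos h]

theorem cat_add {n : ℕ} {v w : ℕ → V} (i : ℕ) : cat n v w (n + i) = w i := by
  unfold cat
  rw [if_neg (by omega)]
  congr 1
  omega

theorem cat_ge {n : ℕ} {v w : ℕ → V} {i : ℕ} (h : n ≤ i) : cat n v w i = w (i - n) := by
  unfold cat
  rw [if_neg (by omega)]

theorem Lab.cat [DecidableEq V] {U W : Finset V} {n m : ℕ} {v w : ℕ → V} (hv : Lab U n v)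
    (hw : Lab W m w) (hd : Disjoint U W) : Lab (U ∪ W) (n + m) (cat n v w) := by
  refine ⟨?_, ?_, ?_⟩
  · intro i hi
    rcases lt_or_ge i n with h | h
    · rw [cat_lt h]; exact Finset.mem_union_left _ (hv.mem i h)
    · rw [cat_ge h]; exact Finset.mem_union_right _ (hw.mem _ (by omega))
  · intro i hi j hj hij
    rcases lt_or_ge i n with h | h <;> rcases lt_or_ge j n with h' | h'
    · rw [cat_lt h, cat_lt h'] at hij
      exact hv.inj i h j h' hij
    · rw [cat_lt h, cat_ge h'] at hij
      exact absurd hij (Finset.disjoint_iff_ne.1 hd _ (hv.mem i h) _ (hw.mem _ (by omega)))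
    · rw [cat_ge h, cat_lt h'] at hij
      exact absurd hij.symm (Finset.disjoint_iff_ne.1 hd _ (hv.mem j h') _ (hw.mem _ (by omega)))
    · rw [cat_ge h, cat_ge h'] at hij
      have := hw.inj _ (by omega) _ (by omega) hij
      omega
  · intro x hx
    rcases Finset.mem_union.1 hx with h | h
    · obtain ⟨i, hi, rfl⟩ := hv.surj x h
      exact ⟨i, by omega, cat_lt hi⟩
    · obtain ⟨i, hi, rfl⟩ := hw.surj x h
      exact ⟨n + i, by omega, cat_add i⟩

/-- three given vertices -/
def mk3 (x y z : V) : ℕ → V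
  | 0 => x
  | 1 => y
  | _ => z

/-- four given vertices -/
def mk4 (x y z w : V) : ℕ → V
  | 0 => x
  | 1 => y
  | 2 => z
  | _ => w

theorem lab_mk3 [DecidableEq V] {x y z : V} (h1 : x ≠ y) (h2 : x ≠ z) (h3 : y ≠ z) :
    Lab ({x, y, z} : Finset V) 3 (mk3 x y z) := by
  refine ⟨?_, ?_, ?_⟩
  · intro i hi
    interval_cases i <;> simp [mk3]
  · intro i hi j hj hij
    interval_cases i <;> interval_cases j <;> simp_all [mk3]
  · intro u hu
    simp only [Finset.mem_insert, Finset.mem_singleton] at hu
    rcases hu with rfl | rfl | rfl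
    · exact ⟨0, by norm_num, rfl⟩
    · exact ⟨1, by norm_num, rfl⟩
    · exact ⟨2, by norm_num, rfl⟩

theorem lab_mk4 [DecidableEq V] {x y z w : V} (h1 : x ≠ y) (h2 : x ≠ z) (h3 : y ≠ z)
    (h4 : x ≠ w) (h5 : y ≠ w) (h6 : z ≠ w) :
    Lab ({x, y, z, w} : Finset V) 4 (mk4 x y z w) := by
  refine ⟨?_, ?_, ?_⟩
  · intro i hi
    interval_cases i <;> simp [mk4]
  · intro i hi j hj hij
    interval_cases i <;> interval_cases j <;> simp_all [mk4]
  · intro u hu
    simp only [Finset.mem_insert, Finset.mem_singleton] at hu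
    rcases hu with rfl | rfl | rfl | rfl
    · exact ⟨0, by norm_num, rfl⟩
    · exact ⟨1, by norm_num, rfl⟩
    · exact ⟨2, by norm_num, rfl⟩
    · exact ⟨3, by norm_num, rfl⟩

/-! ### covers -/

theorem Cov.mono {U W : Set V} {k : ℕ} (h : Cov G W k) (hUW : U ⊆ W) : Cov G U k := by
  obtain ⟨F, hF, hc⟩ := h
  exact ⟨F, hF, fun x hx => hc x (hUW hx)⟩

theorem Cov.add {U W S : Set V} {k : ℕ} (h : Cov G W k) (hS : Clu G S)
    (hU : ∀ x ∈ U, x ∈ W ∨ x ∈ S) : Cov G U (k + 1) := by
  obtain ⟨F, hF, hc⟩ := h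
  refine ⟨fun j => if j = k then S else F j, ?_, ?_⟩
  · intro j
    by_cases hj : j = k
    · simp only [hj, if_true]; exact hS
    · simp only [hj, if_false]; exact hF j
  · intro x hx
    rcases hU x hx with h | h
    · obtain ⟨j, hj, hm⟩ := hc x h
      refine ⟨j, by omega, ?_⟩
      simp only [Nat.ne_of_lt hj, if_false]; exact hm
    · exact ⟨k, by omega, by simpa using h⟩

theorem Cov.succ {U : Set V} {k : ℕ} (h : Cov G U k) : Cov G U (k + 1) :=
  h.add clu_empty (fun x hx => Or.inl hx)

theorem cov_one {S : Set V} (h : Clu G S) : Cov G S 1 :=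
  ⟨fun _ => S, fun _ => h, fun x hx => ⟨0, by norm_num, hx⟩⟩

theorem clu_card_le_two {U : Finset V} (h : U.card ≤ 2) : Clu G (U : Set V) := by
  classical
  intro x hx y hy z hz hxy hyz
  left
  by_contra hxz
  have h3 : ({x, y, z} : Finset V) ⊆ U := by
    intro u hu
    simp only [Finset.mem_insert, Finset.mem_singleton] at hu
    rcases hu with rfl | rfl | rfl <;> assumption
  have h4 := Finset.card_le_card h3
  have h5 : ({x, y, z} : Finset V).card = 3 := by
    rw [Finset.card_eq_three]
    exact ⟨x, y, z, hxy.ne, hxz, hyz.ne, rfl⟩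
  omega

theorem cov_sdiff [DecidableEq V] {U S : Finset V} {k : ℕ}
    (h : Cov G ((U \ S : Finset V) : Set V) k) (hS : Clu G (S : Set V)) :
    Cov G (U : Set V) (k + 1) := by
  refine h.add hS ?_
  intro x hx
  by_cases hxs : x ∈ S
  · exact Or.inr (Finset.mem_coe.2 hxs)
  · left
    rw [Finset.mem_coe, Finset.mem_sdiff]
    exact ⟨Finset.mem_coe.1 hx, hxs⟩

end Pool.Agent.R59.NS
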