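import Pool.Agent.R59.NS.Chk

/-! Soundness of the checker, part 1: literals, branching, classes. -/

namespace Pool.Agent.R59.NS

variable {V : Type*} (G : SimpleGraph V) (v : ℕ → V)

/-- truth of the literal number `k` -/
def LT (k : ℕ) : Prop :=
  if k % 2 = 1 then G.Adj (v (k / 32)) (v (k % 32 / 2)) else ¬ G.Adj (v (k / 32)) (v (k % 32 / 2))

def Holds (M : ℕ) : Prop := ∀ k, M.testBit k = true → LT G v k

/-- no induced path on three vertices -/
def Clu (S : Set V) : Prop :=
  ∀ x ∈ S, ∀ y ∈ S, ∀ z ∈ S, G.Adj x y → G.Adj y z → x = z ∨ G.Adj x z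

variable {G v}

theorem holds_lor {a b : ℕ} : Holds G v (Nat.lor a b) ↔ Holds G v a ∧ Holds G v b := by
  constructor
  · intro h
    refine ⟨fun k hk => h k ?_, fun k hk => h k ?_⟩
    · show (a ||| b).testBit k = true
      simp [hk]
    · show (a ||| b).testBit k = true
      simp [hk]
  · rintro ⟨h1, h2⟩ k hk
    have hk' : (a ||| b).testBit k = true := hk
    rw [Nat.testBit_or, Bool.or_eq_true] at hk'
    rcases hk' with h | h
    · exact h1 k h
    · exact h2 k h

theorem holds_lor3 {a b c : ℕ} :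
    Holds G v (lor3 a b c) ↔ Holds G v a ∧ Holds G v b ∧ Holds G v c := by
  unfold lor3
  rw [holds_lor, holds_lor]

theorem holds_zero : Holds G v 0 := by
  intro k hk
  simp at hk

theorem testBit_l1 (i j k : ℕ) : (l1 i j).testBit k = decide (k = 32 * i + 2 * j + 1) := by
  have : l1 i j = 2 ^ (32 * i + 2 * j + 1) := by
    show 2 <<< (32 * i + 2 * j) = _
    rw [Nat.shiftLeft_eq, pow_succ]; ring
  rw [this, Nat.testBit_two_pow]
  simp [eq_comm]

theorem testBit_l0 (i j k : ℕ) : (l0 i j).testBit k = decide (k = 32 * i + 2 * j) := by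
  have : l0 i j = 2 ^ (32 * i + 2 * j) := by
    show 1 <<< (32 * i + 2 * j) = _
    rw [Nat.shiftLeft_eq]; ring
  rw [this, Nat.testBit_two_pow]
  simp [eq_comm]

theorem holds_l1 {i j : ℕ} (hj : j < 16) : Holds G v (l1 i j) ↔ G.Adj (v i) (v j) := by
  have h1 : (32 * i + 2 * j + 1) % 2 = 1 := by omega
  have h2 : (32 * i + 2 * j + 1) / 32 = i := by omega
  have h3 : (32 * i + 2 * j + 1) % 32 / 2 = j := by omega
  constructor
  · intro h
    have := h (32 * i + 2 * j + 1) (by rw [testBit_l1]; simp)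
    unfold LT at this
    rwa [if_pos h1, h2, h3] at this
  · intro h k hk
    rw [testBit_l1, decide_eq_true_iff] at hk
    subst hk
    unfold LT
    rwa [if_pos h1, h2, h3]

theorem holds_l0 {i j : ℕ} (hj : j < 16) : Holds G v (l0 i j) ↔ ¬ G.Adj (v i) (v j) := by
  have h1 : ¬ (32 * i + 2 * j) % 2 = 1 := by omega
  have h2 : (32 * i + 2 * j) / 32 = i := by omega
  have h3 : (32 * i + 2 * j) % 32 / 2 = j := by omega
  constructor
  · intro h
    have := h (32 * i + 2 * j) (by rw [testBit_l0]; simp)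
    unfold LT at this
    rwa [if_neg h1, h2, h3] at this
  · intro h k hk
    rw [testBit_l0, decide_eq_true_iff] at hk
    subst hk
    unfold LT
    rwa [if_neg h1, h2, h3]

theorem not_holds_two : ¬ Holds G v 2 := by
  intro h
  have : (2 : ℕ) = l1 0 0 := rfl
  rw [this, holds_l1 (by norm_num)] at h
  exact G.loopless.irrefl _ h

theorem holds_of_rem {m x : ℕ} (hm : Holds G v m) (h : Holds G v (rem m x)) : Holds G v x := by
  intro k hk
  by_cases hmk : m.testBit k = true
  · exact hm k hmk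
  · apply h k
    show ((x ||| m) ^^^ m).testBit k = true
    simp only [Bool.not_eq_true] at hmk
    simp [hk, hmk]

theorem sound {leaf : ℕ → ℕ} {Goal : Prop} (hl : ∀ c, Holds G v (leaf c) → Goal) :
    ∀ t, Holds G v (need leaf t) → Goal := by
  intro t
  induction t with
  | L c => exact hl c
  | B e t1 t0 ih1 ih0 =>
    intro h
    have h' : Holds G v (comb e (need leaf t1) (need leaf t0)) := h
    unfold comb at h'
    rw [holds_lor] at h'
    obtain ⟨h1, h0⟩ := h'
    have lt1 : (e / 16) % 16 < 16 := Nat.mod_lt _ (by norm_num)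
    have lt2 : e % 16 < 16 := Nat.mod_lt _ (by norm_num)
    by_cases hA : G.Adj (v ((e / 16) % 16)) (v (e % 16))
    · apply ih1
      refine holds_of_rem ?_ h1
      unfold em1
      rw [holds_lor]
      refine ⟨(holds_l1 (i := (e / 16) % 16) lt2).2 hA, (holds_l1 (i := e % 16) lt1).2 hA.symm⟩
    · apply ih0
      refine holds_of_rem ?_ h0
      unfold em0
      rw [holds_lor]
      refine ⟨(holds_l0 (i := (e / 16) % 16) lt2).2 hA,
        (holds_l0 (i := e % 16) lt1).2 (fun h => hA h.symm)⟩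

theorem sound_chk {leaf : ℕ → ℕ} {Goal : Prop} {t : Tr} {init : ℕ}
    (hc : chk leaf t init = true) (hi : Holds G v init)
    (hl : ∀ c, Holds G v (leaf c) → Goal) : Goal := by
  apply sound hl t
  unfold chk at hc
  have h2 : Nat.lor (need leaf t) init = init := Nat.eq_of_beq_eq_true hc
  rw [← h2, holds_lor] at hi
  exact hi.1

theorem dg_lt (c k : ℕ) : dg c k < 16 := by
  show (c >>> k) &&& 15 < 16
  exact lt_of_le_of_lt Nat.and_le_right (by norm_num)

theorem holds_cond {b : Bool} {x y : ℕ} :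
    Holds G v (cond b x y) ↔ (b = true ∧ Holds G v x) ∨ (b = false ∧ Holds G v y) := by
  cases b <;> simp

/-! ### cluster sets -/

theorem Clu.mono {S T : Set V} (h : Clu G T) (hST : S ⊆ T) : Clu G S :=
  fun x hx y hy z hz => h x (hST hx) y (hST hy) z (hST hz)

theorem clu_empty : Clu G (∅ : Set V) := fun x hx => absurd hx (Set.notMem_empty x)

theorem clu_clique {S : Set V} (h : ∀ x ∈ S, ∀ y ∈ S, x = y ∨ G.Adj x y) : Clu G S :=
  fun x hx _ _ z hz _ _ => h x hx z hz

theorem clu_pair (a b : V) : Clu G ({a, b} : Set V) := by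
  intro x hx y hy z hz hxy hyz
  have hxy' := hxy.ne
  have hyz' := hyz.ne
  simp only [Set.mem_insert_iff, Set.mem_singleton_iff] at hx hy hz
  rcases hx with rfl | rfl <;> rcases hy with rfl | rfl <;> rcases hz with rfl | rfl <;>
    simp_all

theorem clu_union {S T : Set V} (hS : Clu G S) (hT : Clu G T)
    (h : ∀ x ∈ S, ∀ y ∈ T, ¬ G.Adj x y) : Clu G (S ∪ T) := by
  intro x hx y hy z hz hxy hyz
  rcases hx with hx | hx
  · rcases hy with hy | hy
    · rcases hz with hz | hz
      · exact hS x hx y hy z hz hxy hyz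
      · exact absurd hyz (h y hy z hz)
    · exact absurd hxy (h x hx y hy)
  · rcases hy with hy | hy
    · exact absurd hxy.symm (h y hy x hx)
    · rcases hz with hz | hz
      · exact absurd hyz.symm (h z hz y hy)
      · exact hT x hx y hy z hz hxy hyz

theorem clu_K3 {a b c : V} (h1 : G.Adj a b) (h2 : G.Adj a c) (h3 : G.Adj b c) :
    Clu G ({a, b, c} : Set V) := by
  apply clu_clique
  intro x hx y hy
  simp only [Set.mem_insert_iff, Set.mem_singleton_iff] at hx hy
  rcases hx with rfl | rfl | rfl <;> rcases hy with rfl | rfl | rfl <;>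
    first
      | exact Or.inl rfl
      | exact Or.inr (by assumption)
      | exact Or.inr (SimpleGraph.Adj.symm (by assumption))

theorem clu_K4 {a b c d : V} (h1 : G.Adj a b) (h2 : G.Adj a c) (h3 : G.Adj b c)
    (h4 : G.Adj a d) (h5 : G.Adj b d) (h6 : G.Adj c d) :
    Clu G ({a, b, c, d} : Set V) := by
  apply clu_clique
  intro x hx y hy
  simp only [Set.mem_insert_iff, Set.mem_singleton_iff] at hx hy
  rcases hx with rfl | rfl | rfl | rfl <;> rcases hy with rfl | rfl | rfl | rfl <;>
    first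
      | exact Or.inl rfl
      | exact Or.inr (by assumption)
      | exact Or.inr (SimpleGraph.Adj.symm (by assumption))

theorem clu_K5 {a b c d e : V} (h1 : G.Adj a b) (h2 : G.Adj a c) (h3 : G.Adj b c)
    (h4 : G.Adj a d) (h5 : G.Adj b d) (h6 : G.Adj c d)
    (h7 : G.Adj a e) (h8 : G.Adj b e) (h9 : G.Adj c e) (h10 : G.Adj d e) :
    Clu G ({a, b, c, d, e} : Set V) := by
  apply clu_clique
  intro x hx y hy
  simp only [Set.mem_insert_iff, Set.mem_singleton_iff] at hx hy
  rcases hx with rfl | rfl | rfl | rfl | rfl <;> rcases hy with rfl | rfl | rfl | rfl | rfl <;>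
    first
      | exact Or.inl rfl
      | exact Or.inr (by assumption)
      | exact Or.inr (SimpleGraph.Adj.symm (by assumption))

theorem clu_21 {a b c : V} (h1 : ¬ G.Adj a c) (h2 : ¬ G.Adj b c) :
    Clu G ({a, b, c} : Set V) := by
  have : ({a, b, c} : Set V) = {a, b} ∪ {c, c} := by
    ext x; simp only [Set.mem_insert_iff, Set.mem_singleton_iff, Set.mem_union]; tauto
  rw [this]
  apply clu_union (clu_pair _ _) (clu_pair _ _)
  intro x hx y hy
  simp only [Set.mem_insert_iff, Set.mem_singleton_iff] at hx hy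
  rcases hx with rfl | rfl <;> rcases hy with rfl | rfl <;> assumption

theorem clu_22 {a b c d : V} (h1 : ¬ G.Adj a c) (h2 : ¬ G.Adj a d) (h3 : ¬ G.Adj b c)
    (h4 : ¬ G.Adj b d) : Clu G ({a, b, c, d} : Set V) := by
  have : ({a, b, c, d} : Set V) = {a, b} ∪ {c, d} := by
    ext x; simp only [Set.mem_insert_iff, Set.mem_singleton_iff, Set.mem_union]; tauto
  rw [this]
  apply clu_union (clu_pair _ _) (clu_pair _ _)
  intro x hx y hy
  simp only [Set.mem_insert_iff, Set.mem_singleton_iff] at hx hy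
  rcases hx with rfl | rfl <;> rcases hy with rfl | rfl <;> assumption

theorem clu_K31 {a b c d : V} (h1 : G.Adj a b) (h2 : G.Adj a c) (h3 : G.Adj b c)
    (h4 : ¬ G.Adj a d) (h5 : ¬ G.Adj b d) (h6 : ¬ G.Adj c d) :
    Clu G ({a, b, c, d} : Set V) := by
  have : ({a, b, c, d} : Set V) = {a, b, c} ∪ {d, d} := by
    ext x; simp only [Set.mem_insert_iff, Set.mem_singleton_iff, Set.mem_union]; tauto
  rw [this]
  apply clu_union (clu_K3 h1 h2 h3) (clu_pair _ _)
  intro x hx y hy
  simp only [Set.mem_insert_iff, Set.mem_singleton_iff] at hx hy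
  rcases hx with rfl | rfl | rfl <;> rcases hy with rfl | rfl <;> assumption

theorem clu_K41 {a b c d e : V} (h1 : G.Adj a b) (h2 : G.Adj a c) (h3 : G.Adj b c)
    (h4 : G.Adj a d) (h5 : G.Adj b d) (h6 : G.Adj c d)
    (h7 : ¬ G.Adj a e) (h8 : ¬ G.Adj b e) (h9 : ¬ G.Adj c e) (h10 : ¬ G.Adj d e) :
    Clu G ({a, b, c, d, e} : Set V) := by
  have : ({a, b, c, d, e} : Set V) = {a, b, c, d} ∪ {e, e} := by
    ext x; simp only [Set.mem_insert_iff, Set.mem_singleton_iff, Set.mem_union]; tauto
  rw [this]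
  apply clu_union (clu_K4 h1 h2 h3 h4 h5 h6) (clu_pair _ _)
  intro x hx y hy
  simp only [Set.mem_insert_iff, Set.mem_singleton_iff] at hx hy
  rcases hx with rfl | rfl | rfl | rfl <;> rcases hy with rfl | rfl <;> assumption

theorem clu_K32 {a b c d e : V} (h1 : G.Adj a b) (h2 : G.Adj a c) (h3 : G.Adj b c)
    (h4 : ¬ G.Adj a d) (h5 : ¬ G.Adj b d) (h6 : ¬ G.Adj c d)
    (h7 : ¬ G.Adj a e) (h8 : ¬ G.Adj b e) (h9 : ¬ G.Adj c e) :
    Clu G ({a, b, c, d, e} : Set V) := by
  have : ({a, b, c, d, e} : Set V) = {a, b, c} ∪ {d, e} := by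
    ext x; simp only [Set.mem_insert_iff, Set.mem_singleton_iff, Set.mem_union]; tauto
  rw [this]
  apply clu_union (clu_K3 h1 h2 h3) (clu_pair _ _)
  intro x hx y hy
  simp only [Set.mem_insert_iff, Set.mem_singleton_iff] at hx hy
  rcases hx with rfl | rfl | rfl <;> rcases hy with rfl | rfl <;> assumption

theorem clu_221 {a b c d e : V} (h1 : ¬ G.Adj a c) (h2 : ¬ G.Adj a d) (h3 : ¬ G.Adj b c)
    (h4 : ¬ G.Adj b d) (h5 : ¬ G.Adj a e) (h6 : ¬ G.Adj b e) (h7 : ¬ G.Adj c e)
    (h8 : ¬ G.Adj d e) : Clu G ({a, b, c, d, e} : Set V) := by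
  have : ({a, b, c, d, e} : Set V) = {a, b, c, d} ∪ {e, e} := by
    ext x; simp only [Set.mem_insert_iff, Set.mem_singleton_iff, Set.mem_union]; tauto
  rw [this]
  apply clu_union (clu_22 h1 h2 h3 h4) (clu_pair _ _)
  intro x hx y hy
  simp only [Set.mem_insert_iff, Set.mem_singleton_iff] at hx hy
  rcases hx with rfl | rfl | rfl | rfl <;> rcases hy with rfl | rfl <;> assumption

end Pool.Agent.R59.NS
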