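import Pool.Agent.R59.NS.Sem

/-! Soundness of the checker, part 2: leaves. -/

namespace Pool.Agent.R59.NS

variable {V : Type*} {G : SimpleGraph V} {v : ℕ → V}

/-- `U` is covered by `k` cluster sets -/
def Cov (G : SimpleGraph V) (U : Set V) (k : ℕ) : Prop :=
  ∃ F : ℕ → Set V, (∀ j, Clu G (F j)) ∧ ∀ x ∈ U, ∃ j < k, x ∈ F j

theorem testBit_vb (a i : ℕ) : (vb a).testBit i = decide (i = a) := by
  have : vb a = 2 ^ a := by
    show 1 <<< a = _
    rw [Nat.shiftLeft_eq]; ring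
  rw [this, Nat.testBit_two_pow]
  simp [eq_comm]

theorem testBit_lor (a b i : ℕ) :
    (Nat.lor a b).testBit i = true ↔ a.testBit i = true ∨ b.testBit i = true := by
  show (a ||| b).testBit i = true ↔ _
  rw [Nat.testBit_or, Bool.or_eq_true]

theorem testBit_lor3 (a b c i : ℕ) :
    (lor3 a b c).testBit i = true ↔ a.testBit i = true ∨ b.testBit i = true ∨ c.testBit i = true := by
  unfold lor3
  rw [testBit_lor, testBit_lor]

theorem testBit_vb' (a i : ℕ) : (vb a).testBit i = true ↔ i = a := by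
  rw [testBit_vb, decide_eq_true_iff]

theorem beq_t {a b : ℕ} : Nat.beq a b = true ↔ a = b :=
  ⟨Nat.eq_of_beq_eq_true, fun h => by subst h; exact Nat.beq_refl a⟩

theorem ble_t {a b : ℕ} : Nat.ble a b = true ↔ a ≤ b :=
  ⟨Nat.le_of_ble_eq_true, Nat.ble_eq_true_of_le⟩

theorem clsN_sound {c : ℕ} (h : Holds G v (clsN c)) :
    ∃ S : Set V, Clu G S ∧ ∀ i, (clsV c).testBit i = true → v i ∈ S := by
  have hx := dg_lt c 4
  have hy := dg_lt c 8
  have hz := dg_lt c 12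
  have hw := dg_lt c 16
  simp only [clsN] at h
  rw [holds_cond] at h
  rcases h with ⟨ht, h⟩ | ⟨-, h⟩
  · rw [beq_t] at ht
    refine ⟨_, clu_pair (v (dg c 4)) (v (dg c 8)), ?_⟩
    intro i hi
    simp only [clsV, ht] at hi
    have hi' : (Nat.lor (vb (dg c 4)) (vb (dg c 8))).testBit i = true := hi
    rw [testBit_lor, testBit_vb', testBit_vb'] at hi'
    rcases hi' with rfl | rfl <;> simp
  rw [holds_cond] at h
  rcases h with ⟨ht, h⟩ | ⟨-, h⟩
  · rw [beq_t] at ht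
    rw [holds_lor3, holds_l1 hy, holds_l1 hz, holds_l1 hz] at h
    refine ⟨_, clu_K3 h.1 h.2.1 h.2.2, ?_⟩
    intro i hi
    simp only [clsV, ht] at hi
    have hi' : (lor3 (vb (dg c 4)) (vb (dg c 8)) (vb (dg c 12))).testBit i = true := hi
    rw [testBit_lor3, testBit_vb', testBit_vb', testBit_vb'] at hi'
    rcases hi' with rfl | rfl | rfl <;> simp
  rw [holds_cond] at h
  rcases h with ⟨ht, h⟩ | ⟨-, h⟩
  · rw [beq_t] at ht
    rw [holds_lor, holds_l0 hz, holds_l0 hz] at h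
    refine ⟨_, clu_21 h.1 h.2, ?_⟩
    intro i hi
    simp only [clsV, ht] at hi
    have hi' : (lor3 (vb (dg c 4)) (vb (dg c 8)) (vb (dg c 12))).testBit i = true := hi
    rw [testBit_lor3, testBit_vb', testBit_vb', testBit_vb'] at hi'
    rcases hi' with rfl | rfl | rfl <;> simp
  rw [holds_cond] at h
  rcases h with ⟨ht, h⟩ | ⟨-, h⟩
  · rw [beq_t] at ht
    rw [holds_lor, holds_lor3, holds_lor3, holds_l1 hy, holds_l1 hz, holds_l1 hz, holds_l1 hw,
      holds_l1 hw, holds_l1 hw] at h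
    refine ⟨_, clu_K4 h.1.1 h.1.2.1 h.1.2.2 h.2.1 h.2.2.1 h.2.2.2, ?_⟩
    intro i hi
    simp only [clsV, ht] at hi
    have hi' : (Nat.lor (lor3 (vb (dg c 4)) (vb (dg c 8)) (vb (dg c 12))) (vb (dg c 16))).testBit i
      = true := hi
    rw [testBit_lor, testBit_lor3, testBit_vb', testBit_vb', testBit_vb', testBit_vb'] at hi'
    rcases hi' with (rfl | rfl | rfl) | rfl <;> simp
  rw [holds_cond] at h
  rcases h with ⟨ht, h⟩ | ⟨-, h⟩
  · rw [beq_t] at ht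
    rw [holds_lor, holds_lor3, holds_lor3, holds_l1 hy, holds_l1 hz, holds_l1 hz, holds_l0 hw,
      holds_l0 hw, holds_l0 hw] at h
    refine ⟨_, clu_K31 h.1.1 h.1.2.1 h.1.2.2 h.2.1 h.2.2.1 h.2.2.2, ?_⟩
    intro i hi
    simp only [clsV, ht] at hi
    have hi' : (Nat.lor (lor3 (vb (dg c 4)) (vb (dg c 8)) (vb (dg c 12))) (vb (dg c 16))).testBit i
      = true := hi
    rw [testBit_lor, testBit_lor3, testBit_vb', testBit_vb', testBit_vb', testBit_vb'] at hi'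
    rcases hi' with (rfl | rfl | rfl) | rfl <;> simp
  rw [holds_cond] at h
  rcases h with ⟨ht, h⟩ | ⟨-, h⟩
  · rw [beq_t] at ht
    rw [holds_lor, holds_lor, holds_lor, holds_l0 hz, holds_l0 hw, holds_l0 hz, holds_l0 hw] at h
    refine ⟨_, clu_22 h.1.1 h.1.2 h.2.1 h.2.2, ?_⟩
    intro i hi
    simp only [clsV, ht] at hi
    have hi' : (Nat.lor (lor3 (vb (dg c 4)) (vb (dg c 8)) (vb (dg c 12))) (vb (dg c 16))).testBit i
      = true := hi
    rw [testBit_lor, testBit_lor3, testBit_vb', testBit_vb', testBit_vb', testBit_vb'] at hi'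
    rcases hi' with (rfl | rfl | rfl) | rfl <;> simp
  exact absurd h not_holds_two

theorem partN_sound {c : ℕ} (k : ℕ) (h : Holds G v (partN k c)) :
    ∃ F : ℕ → Set V, (∀ j, Clu G (F j)) ∧ ∀ i, (partV k c).testBit i = true → ∃ j < k, v i ∈ F j := by
  induction k with
  | zero =>
    refine ⟨fun _ => ∅, fun _ => clu_empty, ?_⟩
    intro i hi
    have : (0 : ℕ).testBit i = true := hi
    simp at this
  | succ k ih =>
    have h' : Holds G v (Nat.lor (clsN (Nat.shiftRight c (Nat.mul 20 k))) (partN k c)) := h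
    rw [holds_lor] at h'
    obtain ⟨F, hF, hFc⟩ := ih h'.2
    obtain ⟨S, hS, hSc⟩ := clsN_sound h'.1
    refine ⟨fun j => if j = k then S else F j, ?_, ?_⟩
    · intro j
      by_cases hj : j = k
      · simp only [hj, if_true]; exact hS
      · simp only [hj, if_false]; exact hF j
    · intro i hi
      have hi' : (Nat.lor (clsV (Nat.shiftRight c (Nat.mul 20 k))) (partV k c)).testBit i = true := hi
      rw [testBit_lor] at hi'
      rcases hi' with hi' | hi'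
      · exact ⟨k, Nat.lt_succ_self k, by simpa using hSc i hi'⟩
      · obtain ⟨j, hj, hm⟩ := hFc i hi'
        refine ⟨j, Nat.lt_succ_of_lt hj, ?_⟩
        simp only [Nat.ne_of_lt hj, if_false]
        exact hm

theorem leafPart_sound {full k c : ℕ} (h : Holds G v (leafPart full k c)) {U : Set V}
    (hU : ∀ x ∈ U, ∃ i, full.testBit i = true ∧ v i = x) : Cov G U k := by
  unfold leafPart at h
  rw [holds_cond] at h
  rcases h with ⟨ht, h⟩ | ⟨-, h⟩
  · rw [beq_t] at ht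
    obtain ⟨F, hF, hFc⟩ := partN_sound k h
    refine ⟨F, hF, ?_⟩
    intro x hx
    obtain ⟨i, hi, rfl⟩ := hU x hx
    exact hFc i (by rw [ht]; exact hi)
  · exact absurd h not_holds_two

theorem or_add_and' : ∀ a b : ℕ, (a ||| b) + (a &&& b) = a + b := by
  intro a
  induction a using Nat.strong_induction_on with
  | _ a ih =>
    intro b
    rcases Nat.eq_zero_or_pos a with h0 | hpos
    · subst h0; simp
    · have h := ih (a / 2) (by omega) (b / 2)
      have e1 : (a ||| b) / 2 = a / 2 ||| b / 2 := Nat.or_div_two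
      have e2 : (a &&& b) / 2 = a / 2 &&& b / 2 := Nat.and_div_two
      have e3 : (a ||| b) % 2 = 1 ↔ a % 2 = 1 ∨ b % 2 = 1 := Nat.or_mod_two_eq_one
      have e4 : (a &&& b) % 2 = 1 ↔ a % 2 = 1 ∧ b % 2 = 1 := Nat.and_mod_two_eq_one
      rw [← e1, ← e2] at h
      omega

theorem lor_le (a b : ℕ) : Nat.lor a b ≤ a + b := by
  have h := or_add_and' a b
  have h' : Nat.lor a b = a ||| b := rfl
  omega

theorem lor_disj {a b : ℕ} (h : Nat.lor a b = a + b) (i : ℕ) :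
    ¬ (a.testBit i = true ∧ b.testBit i = true) := by
  have h1 := or_add_and' a b
  have h' : Nat.lor a b = a ||| b := rfl
  have h2 : a &&& b = 0 := by omega
  rintro ⟨ha, hb⟩
  have : (a &&& b).testBit i = true := by
    rw [Nat.testBit_and, ha, hb]; rfl
  rw [h2] at this
  simp at this

theorem in_full {m full : ℕ} (h : Nat.lor m full = full) {i : ℕ} (hi : m.testBit i = true) :
    full.testBit i = true := by
  rw [← h, testBit_lor]
  exact Or.inl hi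

theorem dist3 {a b c : ℕ}
    (h : lor3 (vb a) (vb b) (vb c) = Nat.add (Nat.add (vb a) (vb b)) (vb c)) :
    a ≠ b ∧ a ≠ c ∧ b ≠ c := by
  unfold lor3 at h
  have h1 := lor_le (vb b) (vb c)
  have h2 := lor_le (vb a) (Nat.lor (vb b) (vb c))
  have h' : Nat.lor (vb a) (Nat.lor (vb b) (vb c)) = vb a + vb b + vb c := h
  have e1 : Nat.lor (vb b) (vb c) = vb b + vb c := by omega
  have e2 : Nat.lor (vb a) (Nat.lor (vb b) (vb c)) = vb a + Nat.lor (vb b) (vb c) := by omega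
  have d1 := lor_disj e1
  have d2 := lor_disj e2
  refine ⟨?_, ?_, ?_⟩
  · rintro rfl
    exact d2 a ⟨(testBit_vb' a a).2 rfl, (testBit_lor _ _ _).2 (Or.inl ((testBit_vb' a a).2 rfl))⟩
  · rintro rfl
    exact d2 a ⟨(testBit_vb' a a).2 rfl, (testBit_lor _ _ _).2 (Or.inr ((testBit_vb' a a).2 rfl))⟩
  · rintro rfl
    exact d1 b ⟨(testBit_vb' b b).2 rfl, (testBit_vb' b b).2 rfl⟩

theorem lor3_le (a b c : ℕ) : lor3 a b c ≤ a + b + c := by
  unfold lor3
  have h1 := lor_le b c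
  have h2 := lor_le a (Nat.lor b c)
  omega

theorem dist4 {a b c d : ℕ}
    (h : Nat.lor (lor3 (vb a) (vb b) (vb c)) (vb d)
      = Nat.add (Nat.add (Nat.add (vb a) (vb b)) (vb c)) (vb d)) :
    (a ≠ b ∧ a ≠ c ∧ b ≠ c) ∧ a ≠ d ∧ b ≠ d ∧ c ≠ d := by
  have h' : Nat.lor (lor3 (vb a) (vb b) (vb c)) (vb d) = vb a + vb b + vb c + vb d := h
  have h1 := lor3_le (vb a) (vb b) (vb c)
  have h2 := lor_le (lor3 (vb a) (vb b) (vb c)) (vb d)
  have e1 : lor3 (vb a) (vb b) (vb c) = vb a + vb b + vb c := by omega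
  have e2 : Nat.lor (lor3 (vb a) (vb b) (vb c)) (vb d) = lor3 (vb a) (vb b) (vb c) + vb d := by
    omega
  have d2 := lor_disj e2 d
  refine ⟨dist3 e1, ?_, ?_, ?_⟩
  · rintro rfl
    exact d2 ⟨by rw [testBit_lor3]; simp [testBit_vb'], by simp [testBit_vb']⟩
  · rintro rfl
    exact d2 ⟨by rw [testBit_lor3]; simp [testBit_vb'], by simp [testBit_vb']⟩
  · rintro rfl
    exact d2 ⟨by rw [testBit_lor3]; simp [testBit_vb'], by simp [testBit_vb']⟩

theorem dist5 {a b c d e : ℕ}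
    (h : Nat.lor (Nat.lor (lor3 (vb a) (vb b) (vb c)) (vb d)) (vb e)
      = Nat.add (Nat.add (Nat.add (Nat.add (vb a) (vb b)) (vb c)) (vb d)) (vb e)) :
    ((a ≠ b ∧ a ≠ c ∧ b ≠ c) ∧ a ≠ d ∧ b ≠ d ∧ c ≠ d) ∧ a ≠ e ∧ b ≠ e ∧ c ≠ e ∧ d ≠ e := by
  have h' : Nat.lor (Nat.lor (lor3 (vb a) (vb b) (vb c)) (vb d)) (vb e)
    = vb a + vb b + vb c + vb d + vb e := h
  have h1 := lor3_le (vb a) (vb b) (vb c)
  have h2 := lor_le (lor3 (vb a) (vb b) (vb c)) (vb d)
  have h3 := lor_le (Nat.lor (lor3 (vb a) (vb b) (vb c)) (vb d)) (vb e)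
  have e1 : Nat.lor (lor3 (vb a) (vb b) (vb c)) (vb d) = vb a + vb b + vb c + vb d := by omega
  have e2 : Nat.lor (Nat.lor (lor3 (vb a) (vb b) (vb c)) (vb d)) (vb e)
    = Nat.lor (lor3 (vb a) (vb b) (vb c)) (vb d) + vb e := by omega
  have d2 := lor_disj e2 e
  refine ⟨dist4 e1, ?_, ?_, ?_, ?_⟩ <;>
  · rintro rfl
    exact d2 ⟨by rw [testBit_lor, testBit_lor3]; simp [testBit_vb'], by simp [testBit_vb']⟩

/-- typed cluster sets on four distinct labels -/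
def T4 (G : SimpleGraph V) (v : ℕ → V) (a b c d : ℕ) : Prop :=
  (G.Adj (v a) (v b) ∧ G.Adj (v a) (v c) ∧ G.Adj (v b) (v c) ∧
    G.Adj (v a) (v d) ∧ G.Adj (v b) (v d) ∧ G.Adj (v c) (v d)) ∨
  (G.Adj (v a) (v b) ∧ G.Adj (v a) (v c) ∧ G.Adj (v b) (v c) ∧
    ¬ G.Adj (v a) (v d) ∧ ¬ G.Adj (v b) (v d) ∧ ¬ G.Adj (v c) (v d)) ∨
  (¬ G.Adj (v a) (v c) ∧ ¬ G.Adj (v a) (v d) ∧ ¬ G.Adj (v b) (v c) ∧ ¬ G.Adj (v b) (v d))

theorem leafBig4_sound {full c : ℕ} (h : Holds G v (leafBig4 full c)) :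
    ∃ a b c d : ℕ, (full.testBit a = true ∧ full.testBit b = true ∧ full.testBit c = true ∧
      full.testBit d = true) ∧ ((a ≠ b ∧ a ≠ c ∧ b ≠ c) ∧ a ≠ d ∧ b ≠ d ∧ c ≠ d) ∧
      T4 G v a b c d := by
  have hx := dg_lt c 4
  have hy := dg_lt c 8
  have hz := dg_lt c 12
  have hw := dg_lt c 16
  simp only [leafBig4] at h
  rw [holds_cond] at h
  rcases h with ⟨h1, h⟩ | ⟨-, h⟩
  swap
  · exact absurd h not_holds_two
  rw [holds_cond] at h
  rcases h with ⟨h2, h⟩ | ⟨-, h⟩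
  swap
  · exact absurd h not_holds_two
  rw [holds_cond] at h
  rcases h with ⟨h3, h⟩ | ⟨-, h⟩
  swap
  · exact absurd h not_holds_two
  rw [beq_t] at h1 h2
  rw [ble_t] at h3
  refine ⟨dg c 4, dg c 8, dg c 12, dg c 16, ⟨?_, ?_, ?_, ?_⟩, dist4 h1, ?_⟩
  · exact in_full h2 (by rw [testBit_lor, testBit_lor3]; simp [testBit_vb'])
  · exact in_full h2 (by rw [testBit_lor, testBit_lor3]; simp [testBit_vb'])
  · exact in_full h2 (by rw [testBit_lor, testBit_lor3]; simp [testBit_vb'])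
  · exact in_full h2 (by rw [testBit_lor, testBit_lor3]; simp [testBit_vb'])
  simp only [clsN] at h
  rw [holds_cond] at h
  rcases h with ⟨ht, h⟩ | ⟨-, h⟩
  · rw [beq_t] at ht; omega
  rw [holds_cond] at h
  rcases h with ⟨ht, h⟩ | ⟨-, h⟩
  · rw [beq_t] at ht; omega
  rw [holds_cond] at h
  rcases h with ⟨ht, h⟩ | ⟨-, h⟩
  · rw [beq_t] at ht; omega
  rw [holds_cond] at h
  rcases h with ⟨ht, h⟩ | ⟨-, h⟩
  · rw [holds_lor, holds_lor3, holds_lor3, holds_l1 hy, holds_l1 hz, holds_l1 hz, holds_l1 hw,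
      holds_l1 hw, holds_l1 hw] at h
    exact Or.inl ⟨h.1.1, h.1.2.1, h.1.2.2, h.2.1, h.2.2.1, h.2.2.2⟩
  rw [holds_cond] at h
  rcases h with ⟨ht, h⟩ | ⟨-, h⟩
  · rw [holds_lor, holds_lor3, holds_lor3, holds_l1 hy, holds_l1 hz, holds_l1 hz, holds_l0 hw,
      holds_l0 hw, holds_l0 hw] at h
    exact Or.inr (Or.inl ⟨h.1.1, h.1.2.1, h.1.2.2, h.2.1, h.2.2.1, h.2.2.2⟩)
  rw [holds_cond] at h
  rcases h with ⟨ht, h⟩ | ⟨-, h⟩
  · rw [holds_lor, holds_lor, holds_lor, holds_l0 hz, holds_l0 hw, holds_l0 hz, holds_l0 hw] at h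
    exact Or.inr (Or.inr ⟨h.1.1, h.1.2, h.2.1, h.2.2⟩)
  exact absurd h not_holds_two

theorem leafK4_sound {full c : ℕ} (h : Holds G v (leafK4 full c)) :
    ∃ a b c d : ℕ, (full.testBit a = true ∧ full.testBit b = true ∧ full.testBit c = true ∧
      full.testBit d = true) ∧ (G.Adj (v a) (v b) ∧ G.Adj (v a) (v c) ∧ G.Adj (v b) (v c) ∧
    G.Adj (v a) (v d) ∧ G.Adj (v b) (v d) ∧ G.Adj (v c) (v d)) := by
  have hx := dg_lt c 4
  have hy := dg_lt c 8
  have hz := dg_lt c 12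
  have hw := dg_lt c 16
  simp only [leafK4] at h
  rw [holds_cond] at h
  rcases h with ⟨h2, h⟩ | ⟨-, h⟩
  swap
  · exact absurd h not_holds_two
  rw [holds_cond] at h
  rcases h with ⟨h3, h⟩ | ⟨-, h⟩
  swap
  · exact absurd h not_holds_two
  rw [beq_t] at h2 h3
  refine ⟨dg c 4, dg c 8, dg c 12, dg c 16, ⟨?_, ?_, ?_, ?_⟩, ?_⟩
  · exact in_full h2 (by rw [testBit_lor, testBit_lor3]; simp [testBit_vb'])
  · exact in_full h2 (by rw [testBit_lor, testBit_lor3]; simp [testBit_vb'])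
  · exact in_full h2 (by rw [testBit_lor, testBit_lor3]; simp [testBit_vb'])
  · exact in_full h2 (by rw [testBit_lor, testBit_lor3]; simp [testBit_vb'])
  simp only [clsN] at h
  rw [holds_cond] at h
  rcases h with ⟨ht, h⟩ | ⟨-, h⟩
  · rw [beq_t] at ht; omega
  rw [holds_cond] at h
  rcases h with ⟨ht, h⟩ | ⟨-, h⟩
  · rw [beq_t] at ht; omega
  rw [holds_cond] at h
  rcases h with ⟨ht, h⟩ | ⟨-, h⟩
  · rw [beq_t] at ht; omega
  rw [holds_cond] at h
  rcases h with ⟨ht, h⟩ | ⟨ht, h⟩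
  · rw [holds_lor, holds_lor3, holds_lor3, holds_l1 hy, holds_l1 hz, holds_l1 hz, holds_l1 hw,
      holds_l1 hw, holds_l1 hw] at h
    exact ⟨h.1.1, h.1.2.1, h.1.2.2, h.2.1, h.2.2.1, h.2.2.2⟩
  · rw [← h3] at ht
    exact absurd ht (by decide)

/-- typed cluster sets on three labels -/
def T3 (G : SimpleGraph V) (v : ℕ → V) (a b c : ℕ) : Prop :=
  (G.Adj (v a) (v b) ∧ G.Adj (v a) (v c) ∧ G.Adj (v b) (v c)) ∨
  (¬ G.Adj (v a) (v c) ∧ ¬ G.Adj (v b) (v c))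

theorem leafBig3_sound {full c : ℕ} (h : Holds G v (leafBig3 full c)) :
    ∃ a b c : ℕ, (full.testBit a = true ∧ full.testBit b = true ∧ full.testBit c = true) ∧
      (a ≠ b ∧ a ≠ c ∧ b ≠ c) ∧ T3 G v a b c := by
  have hx := dg_lt c 4
  have hy := dg_lt c 8
  have hz := dg_lt c 12
  simp only [leafBig3] at h
  rw [holds_cond] at h
  rcases h with ⟨h1, h⟩ | ⟨-, h⟩
  swap
  · exact absurd h not_holds_two
  rw [holds_cond] at h
  rcases h with ⟨h2, h⟩ | ⟨-, h⟩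
  swap
  · exact absurd h not_holds_two
  rw [holds_cond] at h
  rcases h with ⟨h3, h⟩ | ⟨-, h⟩
  swap
  · exact absurd h not_holds_two
  rw [holds_cond] at h
  rcases h with ⟨h4, h⟩ | ⟨-, h⟩
  swap
  · exact absurd h not_holds_two
  rw [beq_t] at h1 h2
  rw [ble_t] at h3 h4
  refine ⟨dg c 4, dg c 8, dg c 12, ⟨?_, ?_, ?_⟩, dist3 h1, ?_⟩
  · exact in_full h2 (by rw [testBit_lor3]; simp [testBit_vb'])
  · exact in_full h2 (by rw [testBit_lor3]; simp [testBit_vb'])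
  · exact in_full h2 (by rw [testBit_lor3]; simp [testBit_vb'])
  simp only [clsN] at h
  rw [holds_cond] at h
  rcases h with ⟨ht, h⟩ | ⟨-, h⟩
  · rw [beq_t] at ht; omega
  rw [holds_cond] at h
  rcases h with ⟨ht, h⟩ | ⟨-, h⟩
  · rw [holds_lor3, holds_l1 hy, holds_l1 hz, holds_l1 hz] at h
    exact Or.inl h
  rw [holds_cond] at h
  rcases h with ⟨ht, h⟩ | ⟨-, h⟩
  · rw [holds_lor, holds_l0 hz, holds_l0 hz] at h
    exact Or.inr h
  rw [holds_cond] at h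
  rcases h with ⟨ht, h⟩ | ⟨-, h⟩
  · rw [beq_t] at ht; omega
  rw [holds_cond] at h
  rcases h with ⟨ht, h⟩ | ⟨-, h⟩
  · rw [beq_t] at ht; omega
  rw [holds_cond] at h
  rcases h with ⟨ht, h⟩ | ⟨-, h⟩
  · rw [beq_t] at ht; omega
  exact absurd h not_holds_two

theorem bigN_sound {c : ℕ} (h : Holds G v (bigN c)) :
    Clu G ({v (dg c 4), v (dg c 8), v (dg c 12), v (dg c 16), v (dg c 20)} : Set V) := by
  have hx := dg_lt c 4
  have hy := dg_lt c 8
  have hz := dg_lt c 12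
  have hw := dg_lt c 16
  have hu := dg_lt c 20
  simp only [bigN] at h
  rw [holds_cond] at h
  rcases h with ⟨ht, h⟩ | ⟨-, h⟩
  · rw [holds_lor, holds_lor, holds_lor, holds_lor3, holds_lor3, holds_lor3, holds_l1 hy, holds_l1 hz,
      holds_l1 hz, holds_l1 hw, holds_l1 hw, holds_l1 hw, holds_l1 hu, holds_l1 hu, holds_l1 hu,
      holds_l1 hu] at h
    exact clu_K5 h.1.1.1 h.1.1.2.1 h.1.1.2.2 h.1.2.1 h.1.2.2.1 h.1.2.2.2 h.2.1.1 h.2.1.2.1
      h.2.1.2.2 h.2.2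
  rw [holds_cond] at h
  rcases h with ⟨ht, h⟩ | ⟨-, h⟩
  · rw [holds_lor, holds_lor, holds_lor, holds_lor3, holds_lor3, holds_lor3, holds_l1 hy, holds_l1 hz,
      holds_l1 hz, holds_l1 hw, holds_l1 hw, holds_l1 hw, holds_l0 hu, holds_l0 hu, holds_l0 hu,
      holds_l0 hu] at h
    exact clu_K41 h.1.1.1 h.1.1.2.1 h.1.1.2.2 h.1.2.1 h.1.2.2.1 h.1.2.2.2 h.2.1.1 h.2.1.2.1
      h.2.1.2.2 h.2.2
  rw [holds_cond] at h
  rcases h with ⟨ht, h⟩ | ⟨-, h⟩
  · rw [holds_lor3, holds_lor3, holds_lor3, holds_lor3, holds_l1 hy, holds_l1 hz,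
      holds_l1 hz, holds_l0 hw, holds_l0 hw, holds_l0 hw, holds_l0 hu, holds_l0 hu, holds_l0 hu] at h
    exact clu_K32 h.1.1 h.1.2.1 h.1.2.2 h.2.1.1 h.2.1.2.1 h.2.1.2.2 h.2.2.1 h.2.2.2.1 h.2.2.2.2
  rw [holds_cond] at h
  rcases h with ⟨ht, h⟩ | ⟨-, h⟩
  · rw [holds_lor, holds_lor, holds_lor, holds_lor, holds_lor, holds_lor, holds_lor,
      holds_l0 hz, holds_l0 hw, holds_l0 hz, holds_l0 hw, holds_l0 hu, holds_l0 hu, holds_l0 hu,
      holds_l0 hu] at h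
    exact clu_221 h.1.1.1 h.1.1.2 h.1.2.1 h.1.2.2 h.2.1.1 h.2.1.2 h.2.2.1 h.2.2.2
  exact absurd h not_holds_two

theorem leafBig5_sound {full c : ℕ} (h : Holds G v (leafBig5 full c)) :
    ∃ a b c d e : ℕ, (full.testBit a = true ∧ full.testBit b = true ∧ full.testBit c = true ∧
      full.testBit d = true ∧ full.testBit e = true) ∧
      (((a ≠ b ∧ a ≠ c ∧ b ≠ c) ∧ a ≠ d ∧ b ≠ d ∧ c ≠ d) ∧ a ≠ e ∧ b ≠ e ∧ c ≠ e ∧ d ≠ e) ∧
      Clu G ({v a, v b, v c, v d, v e} : Set V) := by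
  simp only [leafBig5] at h
  rw [holds_cond] at h
  rcases h with ⟨h1, h⟩ | ⟨-, h⟩
  swap
  · exact absurd h not_holds_two
  rw [holds_cond] at h
  rcases h with ⟨h2, h⟩ | ⟨-, h⟩
  swap
  · exact absurd h not_holds_two
  rw [beq_t] at h1 h2
  refine ⟨dg c 4, dg c 8, dg c 12, dg c 16, dg c 20, ⟨?_, ?_, ?_, ?_, ?_⟩, dist5 h1, bigN_sound h⟩
  · exact in_full h2 (by rw [testBit_lor, testBit_lor, testBit_lor3]; simp [testBit_vb'])
  · exact in_full h2 (by rw [testBit_lor, testBit_lor, testBit_lor3]; simp [testBit_vb'])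
  · exact in_full h2 (by rw [testBit_lor, testBit_lor, testBit_lor3]; simp [testBit_vb'])
  · exact in_full h2 (by rw [testBit_lor, testBit_lor, testBit_lor3]; simp [testBit_vb'])
  · exact in_full h2 (by rw [testBit_lor, testBit_lor, testBit_lor3]; simp [testBit_vb'])

end Pool.Agent.R59.NS
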