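import Pool.Agent.R59.NS.Sem2

/-! Soundness of the checker, part 3: order leaves, codes, initial masks. -/

namespace Pool.Agent.R59.NS

variable {V : Type*} {G : SimpleGraph V} {v : ℕ → V}

theorem holds_rec (f : ℕ → ℕ) (n : ℕ) :
    Holds G v (Nat.rec (motive := fun _ => ℕ) 0 (fun t r => Nat.lor (f t) r) n) ↔
      ∀ t < n, Holds G v (f t) := by
  induction n with
  | zero => exact ⟨fun _ t ht => absurd ht (Nat.not_lt_zero t), fun _ => holds_zero⟩
  | succ n ih =>
    have : Holds G v (Nat.rec (motive := fun _ => ℕ) 0 (fun t r => Nat.lor (f t) r) (n + 1)) ↔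
      Holds G v (Nat.lor (f n) (Nat.rec (motive := fun _ => ℕ) 0 (fun t r => Nat.lor (f t) r) n)) :=
      Iff.rfl
    rw [this, holds_lor, ih]
    constructor
    · rintro ⟨h1, h2⟩ t ht
      rcases Nat.lt_succ_iff_lt_or_eq.1 ht with h | h
      · exact h2 t h
      · subst h; exact h1
    · intro h
      exact ⟨h n (Nat.lt_succ_self n), fun t ht => h t (Nat.lt_succ_of_lt ht)⟩

theorem testBit_rec (f : ℕ → ℕ) (n i : ℕ) :
    Nat.testBit (Nat.rec (motive := fun _ => ℕ) 0 (fun t r => Nat.lor (f t) r) n) i = true ↔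
      ∃ t < n, (f t).testBit i = true := by
  induction n with
  | zero => simp
  | succ n ih =>
    have : Nat.testBit (Nat.rec (motive := fun _ => ℕ) 0 (fun t r => Nat.lor (f t) r) (n + 1)) i
        = true ↔
      Nat.testBit (Nat.lor (f n) (Nat.rec (motive := fun _ => ℕ) 0
        (fun t r => Nat.lor (f t) r) n)) i = true := Iff.rfl
    rw [this, testBit_lor, ih]
    constructor
    · rintro (h | ⟨t, ht, h⟩)
      · exact ⟨n, Nat.lt_succ_self n, h⟩
      · exact ⟨t, Nat.lt_succ_of_lt ht, h⟩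
    · rintro ⟨t, ht, h⟩
      rcases Nat.lt_succ_iff_lt_or_eq.1 ht with h' | h'
      · exact Or.inr ⟨t, h', h⟩
      · subst h'; exact Or.inl h

theorem bit_t (c t : ℕ) :
    Nat.beq (Nat.land (Nat.shiftRight c t) 1) 1 = true ↔ c.testBit t = true := by
  rw [beq_t, Nat.testBit_eq_decide_div_mod_eq, decide_eq_true_iff]
  have : Nat.land (Nat.shiftRight c t) 1 = c / 2 ^ t % 2 := by
    show (c >>> t) &&& 1 = _
    rw [Nat.and_one_is_mod, Nat.shiftRight_eq_div_pow]
  rw [this]

/-- adjacency literal with prescribed value -/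
theorem holds_cond_lit {b : Bool} {i j : ℕ} (hj : j < 16) :
    Holds G v (cond b (l1 i j) (l0 i j)) ↔ (G.Adj (v i) (v j) ↔ b = true) := by
  cases b
  · rw [cond_false, holds_l0 hj]; simp
  · rw [cond_true, holds_l1 hj]; simp

theorem ordN_sound {base q k pat m : ℕ} (hb : base + m ≤ 16) (hk : k < m)
    (h : Holds G v (ordN base q k pat m)) :
    G.Adj (v q) (v (base + k)) ∧ ¬ G.Adj (v (q + 1)) (v (base + k)) ∧
      ∀ t < m, k < t → (G.Adj (v q) (v (base + t)) ↔ G.Adj (v (q + 1)) (v (base + t))) := by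
  unfold ordN at h
  rw [holds_lor, holds_lor, holds_rec] at h
  obtain ⟨⟨h1, h2⟩, h3⟩ := h
  refine ⟨?_, ?_, ?_⟩
  · exact (holds_l1 (by show base + k < 16; omega)).1 h1
  · exact (holds_l0 (by show base + k < 16; omega)).1 h2
  · intro t ht hkt
    have h4 := h3 t ht
    rw [holds_cond] at h4
    rcases h4 with ⟨h5, -⟩ | ⟨-, h4⟩
    · rw [ble_t] at h5; omega
    have hlt : Nat.add base t < 16 := by show base + t < 16; omega
    rw [holds_cond] at h4
    rcases h4 with ⟨-, h4⟩ | ⟨-, h4⟩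
    · rw [holds_lor, holds_l1 hlt, holds_l1 hlt] at h4
      exact ⟨fun _ => h4.2, fun _ => h4.1⟩
    · rw [holds_lor, holds_l0 hlt, holds_l0 hlt] at h4
      exact ⟨fun h => absurd h h4.1, fun h => absurd h h4.2⟩

/-- the adjacency mask of `x` on the vertices `r 0, …, r (m-1)` -/
noncomputable def key (G : SimpleGraph V) (r : ℕ → V) (m : ℕ) (x : V) : ℕ := by
  classical
  exact Nat.ofBits (fun t : Fin m => decide (G.Adj x (r t)))

theorem key_testBit_lt {r : ℕ → V} {m : ℕ} {x : V} {t : ℕ} (ht : t < m) :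
    (key G r m x).testBit t = true ↔ G.Adj x (r t) := by
  classical
  unfold key
  rw [Nat.testBit_ofBits_lt _ _ ht]
  simp

theorem key_testBit_ge {r : ℕ → V} {m : ℕ} {x : V} {t : ℕ} (ht : m ≤ t) :
    (key G r m x).testBit t = false := by
  classical
  unfold key
  rw [Nat.testBit_ofBits_ge _ _ ht]

theorem leafOrd_sound {base m q1 q2 c : ℕ} (hb : base + m ≤ 16)
    (h : Holds G v (leafOrd base m q1 q2 c)) :
    ∃ q, q1 ≤ q ∧ q ≤ q2 ∧ key G (fun t => v (base + t)) m (v (q + 1)) <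
      key G (fun t => v (base + t)) m (v q) := by
  simp only [leafOrd] at h
  rw [holds_cond] at h
  rcases h with ⟨h1, h⟩ | ⟨-, h⟩
  swap
  · exact absurd h not_holds_two
  rw [holds_cond] at h
  rcases h with ⟨h2, h⟩ | ⟨-, h⟩
  swap
  · exact absurd h not_holds_two
  rw [holds_cond] at h
  rcases h with ⟨h3, h⟩ | ⟨-, h⟩
  swap
  · exact absurd h not_holds_two
  rw [ble_t] at h1 h2 h3
  have hk : dg c 4 < m := h3
  obtain ⟨a1, a2, a3⟩ := ordN_sound hb hk h
  refine ⟨dg c 0, h1, h2, ?_⟩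
  apply Nat.lt_of_testBit (dg c 4)
  · rw [← Bool.not_eq_true, key_testBit_lt hk]; exact a2
  · rw [key_testBit_lt hk]; exact a1
  · intro j hj
    by_cases hjm : j < m
    · rw [Bool.eq_iff_iff, key_testBit_lt hjm, key_testBit_lt hjm]
      exact (a3 j hjm hj).symm
    · rw [key_testBit_ge (not_lt.1 hjm), key_testBit_ge (not_lt.1 hjm)]

theorem codeN_sound {o1 o2 c : ℕ} (ho : o2 + 6 ≤ 16) (h : Holds G v (codeN o1 o2 c)) :
    ∀ q < 4, ∀ t < 6, (G.Adj (v (o1 + q)) (v (o2 + t)) ↔ c.testBit (6 * q + t) = true) := by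
  intro q hq t ht
  unfold codeN at h
  rw [holds_rec] at h
  have h1 := h (6 * q + t) (by omega)
  have e1 : (6 * q + t) / 6 = q := by omega
  have e2 : (6 * q + t) % 6 = t := by omega
  rw [holds_cond_lit (by show o2 + (6 * q + t) % 6 < 16; omega)] at h1
  have h2 : (G.Adj (v (o1 + (6 * q + t) / 6)) (v (o2 + (6 * q + t) % 6)) ↔
    Nat.beq (Nat.land (Nat.shiftRight c (6 * q + t)) 1) 1 = true) := h1
  rw [e1, e2, bit_t] at h2
  exact h2

theorem holds_codeS {o1 o2 c : ℕ} (ho1 : o1 + 4 ≤ 16) (ho : o2 + 6 ≤ 16)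
    (h : ∀ q < 4, ∀ t < 6, (G.Adj (v (o1 + q)) (v (o2 + t)) ↔ c.testBit (6 * q + t) = true)) :
    Holds G v (codeS o1 o2 c) := by
  unfold codeS
  rw [holds_rec]
  intro t ht
  have h1 := h (t / 6) (by omega) (t % 6) (by omega)
  have e : 6 * (t / 6) + t % 6 = t := by omega
  rw [e, ← bit_t] at h1
  have hj1 : Nat.add o2 (Nat.mod t 6) < 16 := by show o2 + t % 6 < 16; omega
  have hj2 : Nat.add o1 (Nat.div t 6) < 16 := by show o1 + t / 6 < 16; omega
  rw [holds_cond]
  rcases hb : Nat.beq (Nat.land (Nat.shiftRight c t) 1) 1 with _ | _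
  · right
    refine ⟨rfl, ?_⟩
    rw [hb] at h1
    have h2 : ¬ G.Adj (v (o1 + t / 6)) (v (o2 + t % 6)) := by rw [h1]; simp
    rw [holds_lor, holds_l0 hj1, holds_l0 hj2]
    exact ⟨h2, fun h3 => h2 h3.symm⟩
  · left
    refine ⟨rfl, ?_⟩
    rw [hb] at h1
    have h2 : G.Adj (v (o1 + t / 6)) (v (o2 + t % 6)) := h1.2 rfl
    rw [holds_lor, holds_l1 hj1, holds_l1 hj2]
    exact ⟨h2, h2.symm⟩

/-- the vertices `v o, …, v (o+n-1)` have the adjacency matrix given by the bits of `m` -/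
def Mat (G : SimpleGraph V) (v : ℕ → V) (n m : ℕ) : Prop :=
  ∀ i < n, ∀ j < n, i ≠ j → (G.Adj (v i) (v j) ↔ m.testBit (n * i + j) = true)

theorem holds_matN {o n m : ℕ} (ho : o + n ≤ 16) (h : Mat G (fun i => v (o + i)) n m) :
    Holds G v (matN o n m) := by
  unfold matN
  rw [holds_rec]
  intro t ht
  have ht' : t < n * n := ht
  have hn : 0 < n := by
    rcases Nat.eq_zero_or_pos n with h0 | h0
    · subst h0; omega
    · exact h0
  have hj : t % n < n := Nat.mod_lt t hn
  have hi : t / n < n := Nat.div_lt_of_lt_mul ht'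
  rw [holds_cond]
  rcases hb : Nat.beq (Nat.div t n) (Nat.mod t n) with _ | _
  · right
    refine ⟨rfl, ?_⟩
    have hne : t / n ≠ t % n := by
      intro he
      have : Nat.beq (Nat.div t n) (Nat.mod t n) = true := beq_t.2 he
      rw [hb] at this
      exact absurd this (by simp)
    rw [holds_cond_lit (by show o + t % n < 16; omega), bit_t]
    have h1 := h (t / n) hi (t % n) hj hne
    rw [Nat.div_add_mod] at h1
    exact h1
  · left
    exact ⟨rfl, holds_zero⟩

theorem isoN_sound {m c : ℕ} (h : Holds G v (isoN m c)) :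
    Mat G (fun i => v (dg c (4 * i))) 6 m := by
  intro i hi j hj hij
  unfold isoN at h
  rw [holds_rec] at h
  have h1 := h (6 * i + j) (by omega)
  have e1 : Nat.div (6 * i + j) 6 = i := by show (6 * i + j) / 6 = i; omega
  have e2 : Nat.mod (6 * i + j) 6 = j := by show (6 * i + j) % 6 = j; omega
  rw [e1, e2, holds_cond] at h1
  rcases h1 with ⟨h1, -⟩ | ⟨-, h1⟩
  · rw [beq_t] at h1; exact absurd h1 hij
  rw [holds_cond_lit (dg_lt _ _), bit_t] at h1
  exact h1

theorem isoV_sound {c : ℕ} (h : isoV c = 63) :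
    (∀ t < 6, dg c (4 * t) < 6) ∧ (∀ i < 6, ∃ t < 6, dg c (4 * t) = i) := by
  have key0 : ∀ i, (63 : ℕ).testBit i = true ↔ i < 6 := by
    intro i
    have : (63 : ℕ) = 2 ^ 6 - 1 := rfl
    rw [this, Nat.testBit_two_pow_sub_one]; simp
  have key1 : ∀ i, (isoV c).testBit i = true ↔ ∃ t < 6, dg c (4 * t) = i := by
    intro i
    unfold isoV
    rw [testBit_rec]
    constructor
    · rintro ⟨t, ht, h1⟩
      rw [testBit_vb'] at h1
      exact ⟨t, ht, h1.symm⟩
    · rintro ⟨t, ht, h1⟩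
      refine ⟨t, ht, ?_⟩
      rw [testBit_vb']
      exact h1.symm
  constructor
  · intro t ht
    rw [← key0, ← h, key1]
    exact ⟨t, ht, rfl⟩
  · intro i hi
    rw [← key1, h, key0]
    exact hi

theorem mem_sound {L : List ℕ} {c : ℕ} : mem L c = true → c ∈ L := by
  induction L with
  | nil => intro h; exact absurd h (by simp [mem])
  | cons a L ih =>
    intro h
    have h' : cond (Nat.beq a c) true (mem L c) = true := h
    rcases hb : Nat.beq a c with _ | _
    · rw [hb] at h'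
      exact List.mem_cons_of_mem _ (ih h')
    · rw [beq_t] at hb
      rw [hb]
      exact List.mem_cons_self

end Pool.Agent.R59.NS
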