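import Pool.Agent.R59.NS.Lab
import Pool.Agent.R59.NS.DataS

/-! Small vertex sets: cluster subsets and covers. -/

namespace Pool.Agent.R59.NS

variable {V : Type*} {G : SimpleGraph V}

theorem tb (n i : ℕ) (m : ℕ) (hm : m = 2 ^ n - 1) : m.testBit i = true ↔ i < n := by
  rw [hm, Nat.testBit_two_pow_sub_one, decide_eq_true_iff]

theorem Lab.full {U : Finset V} {n : ℕ} {v : ℕ → V} (h : Lab U n v) {m : ℕ} (hm : m = 2 ^ n - 1) :
    ∀ x ∈ (U : Set V), ∃ i, m.testBit i = true ∧ v i = x := by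
  intro x hx
  obtain ⟨i, hi, hv⟩ := h.surj x (Finset.mem_coe.1 hx)
  exact ⟨i, (tb n i m hm).2 hi, hv⟩

/-- typed clusters with three vertices in every five-set -/
theorem T1 [DecidableEq V] {U : Finset V} (hU : 5 ≤ U.card) :
    ∃ (D : Finset V) (d : ℕ → V), D ⊆ U ∧ Lab D 3 d ∧ T3 G d 0 1 2 := by
  obtain ⟨W, hWU, hW⟩ := Finset.exists_subset_card_eq hU
  obtain ⟨v, hv⟩ := exists_lab (n := 4) hW
  refine sound_chk (G := G) (v := v) (leaf := leafT1) chkT1 holds_zero ?_
  intro c hc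
  unfold leafT1 at hc
  rw [holds_cond] at hc
  rcases hc with ⟨-, hc⟩ | ⟨-, hc⟩
  swap
  · exact absurd hc not_holds_two
  obtain ⟨a, b, c, ⟨ha, hb, hc'⟩, ⟨h1, h2, h3⟩, ht⟩ := leafBig3_sound hc
  replace ha := (tb 5 a 31 rfl).1 ha
  replace hb := (tb 5 b 31 rfl).1 hb
  replace hc' := (tb 5 c 31 rfl).1 hc'
  have e1 : v a ≠ v b := fun h => h1 (hv.inj _ ha _ hb h)
  have e2 : v a ≠ v c := fun h => h2 (hv.inj _ ha _ hc' h)
  have e3 : v b ≠ v c := fun h => h3 (hv.inj _ hb _ hc' h)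
  refine ⟨{v a, v b, v c}, mk3 (v a) (v b) (v c), ?_, lab_mk3 e1 e2 e3, ?_⟩
  · intro u hu
    simp only [Finset.mem_insert, Finset.mem_singleton] at hu
    rcases hu with rfl | rfl | rfl
    · exact hWU (hv.mem _ ha)
    · exact hWU (hv.mem _ hb)
    · exact hWU (hv.mem _ hc')
  · exact ht

theorem T3.clu {d : ℕ → V} {a b c : ℕ} (h : T3 G d a b c) :
    Clu G ({d a, d b, d c} : Set V) := by
  rcases h with ⟨h1, h2, h3⟩ | ⟨h1, h2⟩
  · exact clu_K3 h1 h2 h3
  · exact clu_21 h1 h2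

theorem T4.clu {d : ℕ → V} {a b c e : ℕ} (h : T4 G d a b c e) :
    Clu G ({d a, d b, d c, d e} : Set V) := by
  rcases h with ⟨h1, h2, h3, h4, h5, h6⟩ | ⟨h1, h2, h3, h4, h5, h6⟩ | ⟨h1, h2, h3, h4⟩
  · exact clu_K4 h1 h2 h3 h4 h5 h6
  · exact clu_K31 h1 h2 h3 h4 h5 h6
  · exact clu_22 h1 h2 h3 h4

theorem lab3_sub {D : Finset V} {d : ℕ → V} (h : Lab D 3 d) :
    (D : Set V) ⊆ {d 0, d 1, d 2} := by
  intro x hx
  obtain ⟨i, hi, rfl⟩ := h.surj x hx
  interval_cases i <;> simp

theorem lab4_sub {D : Finset V} {d : ℕ → V} (h : Lab D 4 d) :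
    (D : Set V) ⊆ {d 0, d 1, d 2, d 3} := by
  intro x hx
  obtain ⟨i, hi, rfl⟩ := h.surj x hx
  interval_cases i <;> simp

/-- five vertices are covered by two clusters -/
theorem cov2_five [DecidableEq V] {U : Finset V} (hU : U.card ≤ 5) : Cov G (U : Set V) 2 := by
  rcases Nat.lt_or_ge U.card 5 with h | h
  · -- split into two pairs
    have h2 : min 2 U.card ≤ U.card := min_le_right _ _
    obtain ⟨S, hSU, hS⟩ := Finset.exists_subset_card_eq h2
    have hS2 : S.card ≤ 2 := by rw [hS]; exact min_le_left _ _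
    have h3 : (U \ S).card = U.card - S.card := Finset.card_sdiff_of_subset hSU
    have h4 : (U \ S).card ≤ 2 := by
      rw [h3, hS]
      omega
    exact cov_sdiff (cov_one (clu_card_le_two h4)) (clu_card_le_two hS2)
  · obtain ⟨D, d, hDU, hD, ht⟩ := T1 (G := G) h
    have h3 : (U \ D).card = U.card - D.card := Finset.card_sdiff_of_subset hDU
    rw [hD.card] at h3
    exact cov_sdiff (cov_one (clu_card_le_two (by omega))) (ht.clu.mono (lab3_sub hD))

theorem big4_cov [DecidableEq V] {U : Finset V} {n : ℕ} {v : ℕ → V} (hv : Lab U n v) {c m k : ℕ}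
    (hm : m = 2 ^ n - 1) (h : Holds G v (leafBig4 m c))
    (hk : ∀ W : Finset V, W ⊆ U → W.card + 4 ≤ n → Cov G (W : Set V) k) :
    Cov G (U : Set V) (k + 1) := by
  obtain ⟨a, b, c, d, ⟨ha, hb, hc, hd⟩, ⟨⟨h1, h2, h3⟩, h4, h5, h6⟩, ht⟩ := leafBig4_sound h
  rw [tb n _ _ hm] at ha hb hc hd
  have e1 : v a ≠ v b := fun h => h1 (hv.inj _ ha _ hb h)
  have e2 : v a ≠ v c := fun h => h2 (hv.inj _ ha _ hc h)
  have e3 : v b ≠ v c := fun h => h3 (hv.inj _ hb _ hc h)
  have e4 : v a ≠ v d := fun h => h4 (hv.inj _ ha _ hd h)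
  have e5 : v b ≠ v d := fun h => h5 (hv.inj _ hb _ hd h)
  have e6 : v c ≠ v d := fun h => h6 (hv.inj _ hc _ hd h)
  have hsub : ({v a, v b, v c, v d} : Finset V) ⊆ U := by
    intro u hu
    simp only [Finset.mem_insert, Finset.mem_singleton] at hu
    rcases hu with rfl | rfl | rfl | rfl
    · exact hv.mem _ ha
    · exact hv.mem _ hb
    · exact hv.mem _ hc
    · exact hv.mem _ hd
  have hcard : ({v a, v b, v c, v d} : Finset V).card = 4 :=
    (lab_mk4 e1 e2 e3 e4 e5 e6).card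
  have hclu : Clu G (({v a, v b, v c, v d} : Finset V) : Set V) := by
    have := ht.clu
    refine this.mono ?_
    intro x hx
    simpa using hx
  have h3 : (U \ {v a, v b, v c, v d}).card = U.card - 4 := by
    rw [Finset.card_sdiff_of_subset hsub, hcard]
  have hle := Finset.card_le_card hsub
  rw [hv.card] at h3 hle
  exact cov_sdiff (hk _ Finset.sdiff_subset (by omega)) hclu

theorem big5_cov [DecidableEq V] {U : Finset V} {n : ℕ} {v : ℕ → V} (hv : Lab U n v) {c m k : ℕ}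
    (hm : m = 2 ^ n - 1) (h : Holds G v (leafBig5 m c))
    (hk : ∀ W : Finset V, W ⊆ U → W.card + 5 ≤ n → Cov G (W : Set V) k) :
    Cov G (U : Set V) (k + 1) := by
  obtain ⟨a, b, c, d, e, ⟨ha, hb, hc, hd, he⟩, ⟨⟨⟨h1, h2, h3⟩, h4, h5, h6⟩, h7, h8, h9, h10⟩, ht⟩ :=
    leafBig5_sound h
  rw [tb n _ _ hm] at ha hb hc hd he
  have e1 : v a ≠ v b := fun h => h1 (hv.inj _ ha _ hb h)
  have e2 : v a ≠ v c := fun h => h2 (hv.inj _ ha _ hc h)
  have e3 : v b ≠ v c := fun h => h3 (hv.inj _ hb _ hc h)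
  have e4 : v a ≠ v d := fun h => h4 (hv.inj _ ha _ hd h)
  have e5 : v b ≠ v d := fun h => h5 (hv.inj _ hb _ hd h)
  have e6 : v c ≠ v d := fun h => h6 (hv.inj _ hc _ hd h)
  have e7 : v a ≠ v e := fun h => h7 (hv.inj _ ha _ he h)
  have e8 : v b ≠ v e := fun h => h8 (hv.inj _ hb _ he h)
  have e9 : v c ≠ v e := fun h => h9 (hv.inj _ hc _ he h)
  have e10 : v d ≠ v e := fun h => h10 (hv.inj _ hd _ he h)
  have hsub : ({v a, v b, v c, v d, v e} : Finset V) ⊆ U := by
    intro u hu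
    simp only [Finset.mem_insert, Finset.mem_singleton] at hu
    rcases hu with rfl | rfl | rfl | rfl | rfl
    · exact hv.mem _ ha
    · exact hv.mem _ hb
    · exact hv.mem _ hc
    · exact hv.mem _ hd
    · exact hv.mem _ he
  have hcard : ({v a, v b, v c, v d, v e} : Finset V).card = 5 := by
    rw [Finset.card_insert_of_notMem (by simp [e1, e2, e4, e7]),
      Finset.card_insert_of_notMem (by simp [e3, e5, e8]),
      Finset.card_insert_of_notMem (by simp [e6, e9]),
      Finset.card_insert_of_notMem (by simp [e10]), Finset.card_singleton]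
  have hclu : Clu G (({v a, v b, v c, v d, v e} : Finset V) : Set V) := by
    refine ht.mono ?_
    intro x hx
    simpa using hx
  have h3 : (U \ {v a, v b, v c, v d, v e}).card = U.card - 5 := by
    rw [Finset.card_sdiff_of_subset hsub, hcard]
  have hle := Finset.card_le_card hsub
  rw [hv.card] at h3 hle
  exact cov_sdiff (hk _ Finset.sdiff_subset (by omega)) hclu

/-- `r 0, …, r 5` is a labelled copy of the `h`-th critical graph on `U` -/
def IsR (G : SimpleGraph V) (U : Finset V) (h : ℕ) (r : ℕ → V) : Prop :=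
  Lab U 6 r ∧ Mat G r 6 (rr h)

theorem leafT4_sound [DecidableEq V] {U : Finset V} {v : ℕ → V} (hv : Lab U 6 v) {c : ℕ}
    (hc : Holds G v (leafT4 c)) : Cov G (U : Set V) 2 ∨ ∃ h ≤ 2, ∃ r, IsR G U h r := by
  unfold leafT4 at hc
  rw [holds_cond] at hc
  rcases hc with ⟨-, hc⟩ | ⟨-, hc⟩
  · exact Or.inl (leafPart_sound hc (hv.full rfl))
  rw [holds_cond] at hc
  rcases hc with ⟨-, hc⟩ | ⟨-, hc⟩
  · left
    refine big4_cov hv rfl hc ?_
    intro W _ hW
    exact cov_one (clu_card_le_two (by omega))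
  rw [holds_cond] at hc
  rcases hc with ⟨-, hc⟩ | ⟨-, hc⟩
  · unfold leafIso at hc
    rw [holds_cond] at hc
    rcases hc with ⟨h1, hc⟩ | ⟨-, hc⟩
    swap
    · exact absurd hc not_holds_two
    rw [holds_cond] at hc
    rcases hc with ⟨h2, hc⟩ | ⟨-, hc⟩
    swap
    · exact absurd hc not_holds_two
    rw [ble_t] at h1
    rw [beq_t] at h2
    obtain ⟨p1, p2⟩ := isoV_sound h2
    right
    refine ⟨_, h1, fun i => v (dg (Nat.shiftRight (Nat.shiftRight c 4) 4) (4 * i)), ?_, isoN_sound hc⟩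
    have hinj : ∀ i < 6, ∀ j < 6,
        dg (Nat.shiftRight (Nat.shiftRight c 4) 4) (4 * i) =
        dg (Nat.shiftRight (Nat.shiftRight c 4) 4) (4 * j) → i = j := by
      have hs : Finset.image (fun t => dg (Nat.shiftRight (Nat.shiftRight c 4) 4) (4 * t))
          (Finset.range 6) = Finset.range 6 := by
        ext i
        rw [Finset.mem_image, Finset.mem_range]
        constructor
        · rintro ⟨t, ht, rfl⟩
          exact p1 t (Finset.mem_range.1 ht)
        · intro hi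
          obtain ⟨t, ht, he⟩ := p2 i hi
          exact ⟨t, Finset.mem_range.2 ht, he⟩
      have hinj0 := Finset.card_image_iff.1 (by rw [hs] :
        (Finset.image (fun t => dg (Nat.shiftRight (Nat.shiftRight c 4) 4) (4 * t))
          (Finset.range 6)).card = (Finset.range 6).card)
      intro i hi j hj hij
      exact hinj0 (Finset.mem_coe.2 (Finset.mem_range.2 hi))
        (Finset.mem_coe.2 (Finset.mem_range.2 hj)) hij
    refine ⟨?_, ?_, ?_⟩
    · intro i hi
      exact hv.mem _ (p1 i hi)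
    · intro i hi j hj hij
      exact hinj i hi j hj (hv.inj _ (p1 i hi) _ (p1 j hj) hij)
    · intro x hx
      obtain ⟨i, hi, rfl⟩ := hv.surj x hx
      obtain ⟨t, ht, rfl⟩ := p2 i hi
      exact ⟨t, ht, rfl⟩
  · exact absurd hc not_holds_two

theorem mat3 {v : ℕ → V} {m : ℕ} (h01 : G.Adj (v 0) (v 1) ↔ m.testBit 1 = true)
    (h10 : m.testBit 1 = m.testBit 3) (h02 : G.Adj (v 0) (v 2) ↔ m.testBit 2 = true)
    (h20 : m.testBit 2 = m.testBit 6) (h12 : G.Adj (v 1) (v 2) ↔ m.testBit 5 = true)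
    (h21 : m.testBit 5 = m.testBit 7) : Mat G v 3 m := by
  intro i hi j hj hij
  interval_cases i <;> interval_cases j
  · exact absurd rfl hij
  · exact h01
  · exact h02
  · rw [G.adj_comm, h01, h10]
  · exact absurd rfl hij
  · exact h12
  · rw [G.adj_comm, h02, h20]
  · rw [G.adj_comm, h12, h21]
  · exact absurd rfl hij

theorem mat_K3 {v : ℕ → V} (h01 : G.Adj (v 0) (v 1)) (h02 : G.Adj (v 0) (v 2))
    (h12 : G.Adj (v 1) (v 2)) : Mat G v 3 511 := by
  apply mat3 <;> simp [h01, h02, h12, Nat.testBit]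

theorem mat_P3 {v : ℕ → V} (h01 : G.Adj (v 0) (v 1)) (h02 : ¬ G.Adj (v 0) (v 2))
    (h12 : G.Adj (v 1) (v 2)) : Mat G v 3 170 := by
  apply mat3 <;> simp [h01, h02, h12, Nat.testBit]

theorem holds_n2 {v : ℕ → V} {i j : ℕ} (hi : i < 16) (hj : j < 16) (h : ¬ G.Adj (v i) (v j)) :
    Holds G v (n2 i j) := by
  unfold n2
  rw [holds_lor, holds_l0 hj, holds_l0 hi]
  exact ⟨h, fun h' => h h'.symm⟩

/-- six vertices: two clusters or a critical graph -/
theorem T4six [DecidableEq V] {U : Finset V} (hU : U.card = 6) :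
    Cov G (U : Set V) 2 ∨ ∃ h ≤ 2, ∃ r, IsR G U h r := by
  by_cases hcov : Cov G (U : Set V) 2
  · exact Or.inl hcov
  obtain ⟨D, d, hDU, hD, ht⟩ := T1 (G := G) (U := U) (by omega)
  have hW : ¬ Clu G ((U \ D : Finset V) : Set V) := fun h =>
    hcov (cov_sdiff (cov_one h) (ht.clu.mono (lab3_sub hD)))
  have hWc : (U \ D).card = 3 := by
    rw [Finset.card_sdiff_of_subset hDU, hU, hD.card]
  unfold Clu at hW
  push Not at hW
  obtain ⟨x, hx, y, hy, z, hz, hxy, hyz, hxz, hnxz⟩ := hW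
  have hWe : ({x, y, z} : Finset V) = U \ D := by
    apply Finset.eq_of_subset_of_card_le
    · intro u hu
      simp only [Finset.mem_insert, Finset.mem_singleton] at hu
      rcases hu with rfl | rfl | rfl
      · exact hx
      · exact hy
      · exact hz
    · rw [hWc, (lab_mk3 hxy.ne hxz hyz.ne).card]
  have hw : Lab (U \ D) 3 (mk3 x y z) := by
    rw [← hWe]; exact lab_mk3 hxy.ne hxz hyz.ne
  have hlab : Lab U 6 (cat 3 d (mk3 x y z)) := by
    have := hD.cat hw Finset.disjoint_sdiff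
    rw [Finset.union_sdiff_of_subset hDU] at this
    exact this
  have hP3 : Mat G (fun i => cat 3 d (mk3 x y z) (3 + i)) 3 170 := by
    have e : (fun i => cat 3 d (mk3 x y z) (3 + i)) = mk3 x y z := by
      funext i; exact cat_add i
    rw [e]
    exact mat_P3 hxy hnxz hyz
  rcases ht with ⟨h1, h2, h3⟩ | ⟨h1, h2⟩
  · refine sound_chk (G := G) (v := cat 3 d (mk3 x y z)) chkT4a ?_ (fun c hc => leafT4_sound hlab hc)
    unfold initT4a
    rw [holds_lor]
    refine ⟨holds_matN (by norm_num) ?_, holds_matN (by norm_num) hP3⟩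
    apply mat_K3
    · exact h1
    · exact h2
    · exact h3
  · refine sound_chk (G := G) (v := cat 3 d (mk3 x y z)) chkT4b ?_ (fun c hc => leafT4_sound hlab hc)
    unfold initT4b
    rw [holds_lor, holds_lor]
    refine ⟨⟨holds_n2 (by norm_num) (by norm_num) h1, holds_n2 (by norm_num) (by norm_num) h2⟩,
      holds_matN (by norm_num) hP3⟩

theorem leafT5_sound [DecidableEq V] {U : Finset V} {v : ℕ → V} (hv : Lab U 9 v) {c : ℕ}
    (hc : Holds G v (leafT5 c)) : Cov G (U : Set V) 3 := by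
  unfold leafT5 at hc
  rw [holds_cond] at hc
  rcases hc with ⟨-, hc⟩ | ⟨-, hc⟩
  · exact leafPart_sound hc (hv.full rfl)
  rw [holds_cond] at hc
  rcases hc with ⟨-, hc⟩ | ⟨-, hc⟩
  · refine big4_cov hv rfl hc ?_
    intro W _ hW
    exact cov2_five (by omega)
  · exact absurd hc not_holds_two

theorem mat_tri {U : Finset V} {h : ℕ} (hh : h ≤ 2) {r : ℕ → V} (hr : IsR G U h r) :
    G.Adj (r 0) (r 1) ∧ G.Adj (r 0) (r 2) ∧ G.Adj (r 1) (r 2) := by
  obtain ⟨-, hm⟩ := hr
  have h1 := hm 0 (by norm_num) 1 (by norm_num) (by norm_num)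
  have h2 := hm 0 (by norm_num) 2 (by norm_num) (by norm_num)
  have h3 := hm 1 (by norm_num) 2 (by norm_num) (by norm_num)
  interval_cases h
  · exact ⟨h1.2 (by decide), h2.2 (by decide), h3.2 (by decide)⟩
  · exact ⟨h1.2 (by decide), h2.2 (by decide), h3.2 (by decide)⟩
  · exact ⟨h1.2 (by decide), h2.2 (by decide), h3.2 (by decide)⟩

theorem cat_shift (n : ℕ) (v w : ℕ → V) : (fun i => cat n v w (n + i)) = w := by
  funext i; exact cat_add i

/-- at most nine vertices are covered by three clusters -/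
theorem T5nine [DecidableEq V] {U : Finset V} (hU : U.card ≤ 9) : Cov G (U : Set V) 3 := by
  rcases Nat.lt_or_ge U.card 5 with h5 | h5
  · exact (cov2_five (by omega)).succ
  obtain ⟨D, d, hDU, hD, ht⟩ := T1 (G := G) h5
  have hc : (U \ D).card = U.card - 3 := by rw [Finset.card_sdiff_of_subset hDU, hD.card]
  rcases Nat.lt_or_ge U.card 9 with h9 | h9
  · exact cov_sdiff (cov2_five (by omega)) (ht.clu.mono (lab3_sub hD))
  have h9' : U.card = 9 := le_antisymm hU h9
  by_contra hcov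
  rcases T4six (G := G) (U := U \ D) (by omega) with h | ⟨h, hh, r, hr⟩
  · exact hcov (cov_sdiff h (ht.clu.mono (lab3_sub hD)))
  obtain ⟨t1, t2, t3⟩ := mat_tri hh hr
  have hlD := lab_mk3 t1.ne t2.ne t3.ne
  have hDU' : ({r 0, r 1, r 2} : Finset V) ⊆ U := by
    intro u hu
    simp only [Finset.mem_insert, Finset.mem_singleton] at hu
    rcases hu with rfl | rfl | rfl
    · exact Finset.sdiff_subset (hr.1.mem 0 (by norm_num))
    · exact Finset.sdiff_subset (hr.1.mem 1 (by norm_num))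
    · exact Finset.sdiff_subset (hr.1.mem 2 (by norm_num))
  have hc' : (U \ {r 0, r 1, r 2}).card = 6 := by
    rw [Finset.card_sdiff_of_subset hDU', hlD.card, h9']
  have hclu : Clu G (({r 0, r 1, r 2} : Finset V) : Set V) := by
    refine (clu_K3 t1 t2 t3).mono ?_
    intro x hx
    simpa using hx
  rcases T4six (G := G) (U := U \ {r 0, r 1, r 2}) hc' with h | ⟨h', hh', r', hr'⟩
  · exact hcov (cov_sdiff h hclu)
  have hlab : Lab U 9 (cat 3 (mk3 (r 0) (r 1) (r 2)) r') := by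
    have := hlD.cat hr'.1 Finset.disjoint_sdiff
    rw [Finset.union_sdiff_of_subset hDU'] at this
    exact this
  have hK : Mat G (fun i => cat 3 (mk3 (r 0) (r 1) (r 2)) r' (0 + i)) 3 511 :=
    mat_K3 t1 t2 t3
  have hR : Mat G (fun i => cat 3 (mk3 (r 0) (r 1) (r 2)) r' (3 + i)) 6 (rr h') := by
    rw [cat_shift]; exact hr'.2
  have hinit : Holds G (cat 3 (mk3 (r 0) (r 1) (r 2)) r') (initT5 h') := by
    unfold initT5
    rw [holds_lor]
    exact ⟨holds_matN (by norm_num) hK, holds_matN (by norm_num) hR⟩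
  apply hcov
  interval_cases h'
  · exact sound_chk chkT5_0 hinit (fun c hc => leafT5_sound hlab hc)
  · exact sound_chk chkT5_1 hinit (fun c hc => leafT5_sound hlab hc)
  · exact sound_chk chkT5_2 hinit (fun c hc => leafT5_sound hlab hc)

end Pool.Agent.R59.NS
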