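import Pool.Agent.R59.NS.Thm
import Pool.Agent.R59.NS.DataP0
import Pool.Agent.R59.NS.DataP1
import Pool.Agent.R59.NS.DataP2

/-! Ten and fourteen vertices. -/

namespace Pool.Agent.R59.NS

variable {V : Type*} {G : SimpleGraph V}

theorem key_congr {r r' : ℕ → V} {m : ℕ} (h : ∀ t < m, r t = r' t) (x : V) :
    key G r m x = key G r' m x := by
  apply Nat.eq_of_testBit_eq
  intro i
  rcases lt_or_ge i m with hi | hi
  · rw [Bool.eq_iff_iff, key_testBit_lt hi, key_testBit_lt hi, h i hi]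
  · rw [key_testBit_ge hi, key_testBit_ge hi]

theorem T4.toMk {v : ℕ → V} {a b c d : ℕ} (h : T4 G v a b c d) :
    T4 G (mk4 (v a) (v b) (v c) (v d)) 0 1 2 3 := h

theorem T2tri [DecidableEq V] {W : Finset V} (hW : W.card = 10) {x y z : V} (hx : x ∈ W)
    (hy : y ∈ W) (hz : z ∈ W) (hxy : G.Adj x y) (hxz : G.Adj x z) (hyz : G.Adj y z) :
    ∃ (C : Finset V) (c : ℕ → V), C ⊆ W ∧ Lab C 4 c ∧ T4 G c 0 1 2 3 := by
  have hlK := lab_mk3 hxy.ne hxz.ne hyz.ne
  have hKW : ({x, y, z} : Finset V) ⊆ W := by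
    intro u hu
    simp only [Finset.mem_insert, Finset.mem_singleton] at hu
    rcases hu with rfl | rfl | rfl <;> assumption
  have hc : (W \ {x, y, z}).card = 6 + 1 := by
    rw [Finset.card_sdiff_of_subset hKW, hlK.card, hW]
  obtain ⟨w, hw, hs⟩ := exists_sorted (key G (mk3 x y z) 3) 6 (W \ {x, y, z}) hc
  have hlab : Lab W 10 (cat 3 (mk3 x y z) w) := by
    have := hlK.cat hw Finset.disjoint_sdiff
    rw [Finset.union_sdiff_of_subset hKW] at this
    exact this
  refine sound_chk (G := G) (v := cat 3 (mk3 x y z) w) chkT2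
    (holds_matN (by norm_num) (mat_K3 hxy hxz hyz)) ?_
  intro c hc
  unfold leafT2 at hc
  rw [holds_cond] at hc
  rcases hc with ⟨-, hc⟩ | ⟨-, hc⟩
  · obtain ⟨a, b, c, d, ⟨ha, hb, hc, hd⟩, ⟨⟨h1, h2, h3⟩, h4, h5, h6⟩, ht⟩ := leafBig4_sound hc
    replace ha := (tb 10 _ 1023 rfl).1 ha
    replace hb := (tb 10 _ 1023 rfl).1 hb
    replace hc := (tb 10 _ 1023 rfl).1 hc
    replace hd := (tb 10 _ 1023 rfl).1 hd
    refine ⟨_, _, ?_, lab_mk4 (fun h => h1 (hlab.inj _ ha _ hb h))
      (fun h => h2 (hlab.inj _ ha _ hc h)) (fun h => h3 (hlab.inj _ hb _ hc h))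
      (fun h => h4 (hlab.inj _ ha _ hd h)) (fun h => h5 (hlab.inj _ hb _ hd h))
      (fun h => h6 (hlab.inj _ hc _ hd h)), ht.toMk⟩
    intro u hu
    simp only [Finset.mem_insert, Finset.mem_singleton] at hu
    rcases hu with rfl | rfl | rfl | rfl
    · exact hlab.mem _ ha
    · exact hlab.mem _ hb
    · exact hlab.mem _ hc
    · exact hlab.mem _ hd
  rw [holds_cond] at hc
  rcases hc with ⟨-, hc⟩ | ⟨-, hc⟩
  · exfalso
    obtain ⟨q, hq1, hq2, hlt⟩ := leafOrd_sound (by norm_num) hc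
    have hk : ∀ u, key G (fun t => cat 3 (mk3 x y z) w (0 + t)) 3 u = key G (mk3 x y z) 3 u :=
      fun u => key_congr (fun t ht => by
        show cat 3 (mk3 x y z) w (0 + t) = mk3 x y z t
        rw [Nat.zero_add, cat_lt ht]) u
    rw [hk, hk, cat_ge (by omega), cat_ge (by omega)] at hlt
    have := hs (q - 3) (q + 1 - 3) (by omega) (by omega)
    omega
  · exact absurd hc not_holds_two

/-- ten vertices contain a typed cluster set with four vertices -/
theorem T2ten [DecidableEq V] {U : Finset V} (hU : 10 ≤ U.card) :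
    ∃ (C : Finset V) (c : ℕ → V), C ⊆ U ∧ Lab C 4 c ∧ T4 G c 0 1 2 3 := by
  classical
  obtain ⟨W, hWU, hW⟩ := Finset.exists_subset_card_eq hU
  obtain ⟨x, hx⟩ : W.Nonempty := by rw [← Finset.card_pos]; omega
  have hsplit := Finset.card_filter_add_card_filter_not (s := W.erase x) (fun y => G.Adj x y)
  rw [Finset.card_erase_of_mem hx, hW] at hsplit
  rcases Nat.lt_or_ge ((W.erase x).filter (fun y => ¬ G.Adj x y)).card 5 with h5 | h5
  · -- many neighbours
    have hN : 4 ≤ ((W.erase x).filter (fun y => G.Adj x y)).card := by omega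
    obtain ⟨N, hNs, hN4⟩ := Finset.exists_subset_card_eq hN
    have hNW : ∀ y ∈ N, y ∈ W ∧ G.Adj x y := by
      intro y hy
      have := hNs hy
      rw [Finset.mem_filter] at this
      exact ⟨Finset.mem_of_mem_erase this.1, this.2⟩
    by_cases hE : ∃ y ∈ N, ∃ z ∈ N, G.Adj y z
    · obtain ⟨y, hy, z, hz, hyz⟩ := hE
      obtain ⟨C, c, hCW, hC, ht⟩ := T2tri hW hx (hNW y hy).1 (hNW z hz).1 (hNW y hy).2 (hNW z hz).2
        hyz
      exact ⟨C, c, hCW.trans hWU, hC, ht⟩
    · push Not at hE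
      obtain ⟨v, hv⟩ := exists_lab (n := 3) hN4
      refine ⟨N, v, fun u hu => hWU (hNW u hu).1, hv, Or.inr (Or.inr ⟨?_, ?_, ?_, ?_⟩)⟩ <;>
      exact hE _ (hv.mem _ (by norm_num)) _ (hv.mem _ (by norm_num))
  · obtain ⟨D, d, hD, hlD, ht⟩ := T1 (G := G) h5
    have hDW : ∀ y ∈ D, (y ≠ x ∧ y ∈ W) ∧ ¬ G.Adj x y := by
      intro y hy
      have := hD hy
      rw [Finset.mem_filter, Finset.mem_erase] at this
      exact this
    have m0 := hlD.mem 0 (by norm_num)
    have m1 := hlD.mem 1 (by norm_num)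
    have m2 := hlD.mem 2 (by norm_num)
    have d01 : d 0 ≠ d 1 := fun h => absurd (hlD.inj 0 (by norm_num) 1 (by norm_num) h) (by norm_num)
    have d02 : d 0 ≠ d 2 := fun h => absurd (hlD.inj 0 (by norm_num) 2 (by norm_num) h) (by norm_num)
    have d12 : d 1 ≠ d 2 := fun h => absurd (hlD.inj 1 (by norm_num) 2 (by norm_num) h) (by norm_num)
    refine ⟨_, _, ?_, lab_mk4 d01 d02 d12 (hDW _ m0).1.1 (hDW _ m1).1.1 (hDW _ m2).1.1, ?_⟩
    · intro u hu
      simp only [Finset.mem_insert, Finset.mem_singleton] at hu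
      rcases hu with rfl | rfl | rfl | rfl
      · exact hWU (hDW _ m0).1.2
      · exact hWU (hDW _ m1).1.2
      · exact hWU (hDW _ m2).1.2
      · exact hWU hx
    · have n0 : ¬ G.Adj (d 0) x := fun h => (hDW _ m0).2 h.symm
      have n1 : ¬ G.Adj (d 1) x := fun h => (hDW _ m1).2 h.symm
      have n2 : ¬ G.Adj (d 2) x := fun h => (hDW _ m2).2 h.symm
      rcases ht with ⟨h1, h2, h3⟩ | ⟨h1, h2⟩
      · exact Or.inr (Or.inl ⟨h1, h2, h3, n0, n1, n2⟩)
      · exact Or.inr (Or.inr ⟨h1, n0, h2, n1⟩)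

/-- a four-clique -/
def IsK4 (G : SimpleGraph V) (Q : Finset V) : Prop :=
  Q.card = 4 ∧ ∀ x ∈ Q, ∀ y ∈ Q, x ≠ y → G.Adj x y

theorem isK4_mk [DecidableEq V] {a b c d : V} (h1 : G.Adj a b) (h2 : G.Adj a c) (h3 : G.Adj b c)
    (h4 : G.Adj a d) (h5 : G.Adj b d) (h6 : G.Adj c d) : IsK4 G {a, b, c, d} := by
  refine ⟨(lab_mk4 h1.ne h2.ne h3.ne h4.ne h5.ne h6.ne).card, ?_⟩
  intro x hx y hy hxy
  simp only [Finset.mem_insert, Finset.mem_singleton] at hx hy
  rcases hx with rfl | rfl | rfl | rfl <;> rcases hy with rfl | rfl | rfl | rfl <;>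
    first
      | exact absurd rfl hxy
      | assumption
      | exact SimpleGraph.Adj.symm (by assumption)

theorem leafT6_sound [DecidableEq V] {U : Finset V} {v : ℕ → V} (hv : Lab U 10 v) {c : ℕ}
    (hc : Holds G v (leafT6 c)) : Cov G (U : Set V) 3 ∨ ∃ Q, Q ⊆ U ∧ IsK4 G Q := by
  unfold leafT6 at hc
  rw [holds_cond] at hc
  rcases hc with ⟨-, hc⟩ | ⟨-, hc⟩
  · exact Or.inl (leafPart_sound hc (hv.full rfl))
  rw [holds_cond] at hc
  rcases hc with ⟨-, hc⟩ | ⟨-, hc⟩
  · left
    refine big5_cov hv rfl hc ?_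
    intro W _ hW
    exact cov2_five (by omega)
  rw [holds_cond] at hc
  rcases hc with ⟨-, hc⟩ | ⟨-, hc⟩
  · right
    obtain ⟨a, b, c, d, ⟨ha, hb, hc, hd⟩, h1, h2, h3, h4, h5, h6⟩ := leafK4_sound hc
    replace ha := (tb 10 _ 1023 rfl).1 ha
    replace hb := (tb 10 _ 1023 rfl).1 hb
    replace hc := (tb 10 _ 1023 rfl).1 hc
    replace hd := (tb 10 _ 1023 rfl).1 hd
    refine ⟨_, ?_, isK4_mk h1 h2 h3 h4 h5 h6⟩
    intro u hu
    simp only [Finset.mem_insert, Finset.mem_singleton] at hu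
    rcases hu with rfl | rfl | rfl | rfl
    · exact hv.mem _ ha
    · exact hv.mem _ hb
    · exact hv.mem _ hc
    · exact hv.mem _ hd
  · exact absurd hc not_holds_two

/-- ten vertices: three clusters or a four-clique -/
theorem T6ten [DecidableEq V] {U : Finset V} (hU : U.card = 10) :
    Cov G (U : Set V) 3 ∨ ∃ Q, Q ⊆ U ∧ IsK4 G Q := by
  obtain ⟨C, c, hCU, hlC, ht⟩ := T2ten (G := G) (U := U) (by omega)
  have hc : (U \ C).card = 6 := by rw [Finset.card_sdiff_of_subset hCU, hlC.card, hU]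
  rcases T4six (G := G) hc with h | ⟨h, hh, r, hr⟩
  · exact Or.inl (cov_sdiff h (ht.clu.mono (lab4_sub hlC)))
  have hlab : Lab U 10 (cat 4 c r) := by
    have := hlC.cat hr.1 Finset.disjoint_sdiff
    rw [Finset.union_sdiff_of_subset hCU] at this
    exact this
  have hR : Mat G (fun i => cat 4 c r (4 + i)) 6 (rr h) := by
    rw [cat_shift]; exact hr.2
  rcases ht with ⟨h1, h2, h3, h4, h5, h6⟩ | ⟨h1, h2, h3, h4, h5, h6⟩ | ⟨h1, h2, h3, h4⟩
  · right
    refine ⟨_, ?_, isK4_mk h1 h2 h3 h4 h5 h6⟩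
    intro u hu
    simp only [Finset.mem_insert, Finset.mem_singleton] at hu
    rcases hu with rfl | rfl | rfl | rfl <;> exact hCU (hlC.mem _ (by norm_num))
  · have hinit : Holds G (cat 4 c r) (initT6a h) := by
      unfold initT6a
      rw [holds_lor, holds_lor, holds_lor, holds_lor]
      refine ⟨⟨holds_matN (by norm_num) (mat_K3 h1 h2 h3), ?_, ?_, ?_⟩,
        holds_matN (by norm_num) hR⟩
      · exact holds_n2 (by norm_num) (by norm_num) h4
      · exact holds_n2 (by norm_num) (by norm_num) h5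
      · exact holds_n2 (by norm_num) (by norm_num) h6
    interval_cases h
    · exact sound_chk chkT6a_0 hinit (fun c hc => leafT6_sound hlab hc)
    · exact sound_chk chkT6a_1 hinit (fun c hc => leafT6_sound hlab hc)
    · exact sound_chk chkT6a_2 hinit (fun c hc => leafT6_sound hlab hc)
  · have hinit : Holds G (cat 4 c r) (initT6b h) := by
      unfold initT6b
      rw [holds_lor, holds_lor, holds_lor, holds_lor]
      refine ⟨⟨⟨?_, ?_⟩, ?_, ?_⟩, holds_matN (by norm_num) hR⟩
      · exact holds_n2 (by norm_num) (by norm_num) h1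
      · exact holds_n2 (by norm_num) (by norm_num) h2
      · exact holds_n2 (by norm_num) (by norm_num) h3
      · exact holds_n2 (by norm_num) (by norm_num) h4
    interval_cases h
    · exact sound_chk chkT6b_0 hinit (fun c hc => leafT6_sound hlab hc)
    · exact sound_chk chkT6b_1 hinit (fun c hc => leafT6_sound hlab hc)
    · exact sound_chk chkT6b_2 hinit (fun c hc => leafT6_sound hlab hc)

/-- the possible attachments of a four-clique to the `h`-th critical graph -/
def listC (h : ℕ) : List ℕ :=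
  match h with
  | 0 => listC0
  | 1 => listC1
  | _ => listC2

/-- `q` and `r` are joined according to the code `c` -/
def Att (G : SimpleGraph V) (q r : ℕ → V) (c : ℕ) : Prop :=
  ∀ i < 4, ∀ t < 6, (G.Adj (q i) (r t) ↔ c.testBit (6 * i + t) = true)

theorem mat_K4 {Q : Finset V} {q : ℕ → V} (hQ : IsK4 G Q) (hq : Lab Q 4 q) :
    Mat G q 4 65535 := by
  intro i hi j hj hij
  have h1 : G.Adj (q i) (q j) :=
    hQ.2 _ (hq.mem i hi) _ (hq.mem j hj) (fun h => hij (hq.inj i hi j hj h))
  have h2 : (65535 : ℕ).testBit (4 * i + j) = true := (tb 16 _ 65535 rfl).2 (by omega)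
  exact ⟨fun _ => h2, fun _ => h1⟩

theorem attach_aux [DecidableEq V] {Q R : Finset V} {r : ℕ → V} (L : List ℕ)
    (t : Tr) {h : ℕ} (hchk : chk (leafCL L) t (Nat.lor (matN 0 4 65535) (matN 4 6 (rr h))) = true)
    (hQ : IsK4 G Q) (hR : IsR G R h r)
    (hd : Disjoint Q R) (hcov : ¬ Cov G ((Q ∪ R : Finset V) : Set V) 3) :
    ∃ q, Lab Q 4 q ∧ ∃ c ∈ L, Att G q r c := by
  obtain ⟨q, hq, hs⟩ := exists_sorted (key G r 6) 3 Q hQ.1
  refine ⟨q, hq, ?_⟩
  have hlab : Lab (Q ∪ R) 10 (cat 4 q r) := hq.cat hR.1 hd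
  have hinit : Holds G (cat 4 q r) (Nat.lor (matN 0 4 65535) (matN 4 6 (rr h))) := by
    rw [holds_lor]
    constructor
    · apply holds_matN (by norm_num)
      intro i hi j hj hij
      have := mat_K4 hQ hq i hi j hj hij
      simp only [Nat.zero_add]
      rw [cat_lt hi, cat_lt hj]
      exact this
    · apply holds_matN (by norm_num)
      rw [cat_shift]
      exact hR.2
  refine sound_chk hchk hinit ?_
  intro c hc
  unfold leafCL at hc
  rw [holds_cond] at hc
  rcases hc with ⟨-, hc⟩ | ⟨-, hc⟩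
  · exact absurd (leafPart_sound hc (hlab.full rfl)) hcov
  rw [holds_cond] at hc
  rcases hc with ⟨-, hc⟩ | ⟨-, hc⟩
  · exfalso
    apply hcov
    refine big5_cov hlab rfl hc ?_
    intro W _ hW
    exact cov2_five (by omega)
  rw [holds_cond] at hc
  rcases hc with ⟨-, hc⟩ | ⟨-, hc⟩
  · exfalso
    obtain ⟨i, hi1, hi2, hlt⟩ := leafOrd_sound (by norm_num) hc
    rw [cat_shift, cat_lt (show i < 4 by omega), cat_lt (show i + 1 < 4 by omega)] at hlt
    have := hs i (i + 1) (by omega) (by omega)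
    omega
  rw [holds_cond] at hc
  rcases hc with ⟨-, hc⟩ | ⟨-, hc⟩
  · rw [holds_cond] at hc
    rcases hc with ⟨hm, hc⟩ | ⟨-, hc⟩
    · refine ⟨_, mem_sound hm, ?_⟩
      intro i hi t ht
      have := codeN_sound (by norm_num) hc i hi t ht
      rw [Nat.zero_add, cat_lt hi, cat_add] at this
      exact this
    · exact absurd hc not_holds_two
  · exact absurd hc not_holds_two

theorem attach [DecidableEq V] {Q R : Finset V} {r : ℕ → V} {h : ℕ} (hh : h ≤ 2)
    (hQ : IsK4 G Q) (hR : IsR G R h r)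
    (hd : Disjoint Q R) (hcov : ¬ Cov G ((Q ∪ R : Finset V) : Set V) 3) :
    ∃ q, Lab Q 4 q ∧ ∃ c ∈ listC h, Att G q r c := by
  interval_cases h
  · exact attach_aux listC0 treeC0 chkC0 hQ hR hd hcov
  · exact attach_aux listC1 treeC1 chkC1 hQ hR hd hcov
  · exact attach_aux listC2 treeC2 chkC2 hQ hR hd hcov

/-- there is a certificate for the pair of codes -/
def Good (h c c' : ℕ) : Prop := ∃ t, chk leafT7 t (initT7 h c c') = true

theorem chkRow_sound {h c : ℕ} : ∀ (cs : List ℕ) (row : List Tr), chkRow h c cs row = true →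
    ∀ c' ∈ cs, Good h c c' := by
  intro cs
  induction cs with
  | nil => intro _ _ c' hc'; exact absurd hc' (by simp)
  | cons a cs ih =>
    intro row hrow
    cases row with
    | nil =>
      have : false = true := hrow
      exact absurd this (by simp)
    | cons t ts =>
      have hrow' : cond (chk leafT7 t (initT7 h c a)) (chkRow h c cs ts) false = true := hrow
      rcases hb : chk leafT7 t (initT7 h c a) with _ | _
      · rw [hb] at hrow'; exact absurd hrow' (by simp)
      · rw [hb, cond_true] at hrow'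
        intro c' hc'
        rcases List.mem_cons.1 hc' with rfl | hc'
        · exact ⟨t, hb⟩
        · exact ih ts hrow' c' hc'

theorem chkAll_sound {h : ℕ} : ∀ (cs : List ℕ) (rows : List (List Tr)),
    chkAll h cs rows = true → ∀ c ∈ cs, ∀ c' ∈ cs, Good h c c' ∨ Good h c' c := by
  intro cs
  induction cs with
  | nil => intro _ _ c hc; exact absurd hc (by simp)
  | cons a cs ih =>
    intro rows hrows
    cases rows with
    | nil =>
      have : false = true := hrows
      exact absurd this (by simp)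
    | cons r rs =>
      have hrows' : cond (chkRow h a (a :: cs) r) (chkAll h cs rs) false = true := hrows
      rcases hb : chkRow h a (a :: cs) r with _ | _
      · rw [hb] at hrows'; exact absurd hrows' (by simp)
      · rw [hb, cond_true] at hrows'
        have hr := chkRow_sound _ _ hb
        intro c hc c' hc'
        rcases List.mem_cons.1 hc with rfl | hc1
        · exact Or.inl (hr c' hc')
        · rcases List.mem_cons.1 hc' with rfl | hc1'
          · exact Or.inr (hr c hc)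
          · exact ih rs hrows' c hc1 c' hc1'

theorem good_list {h : ℕ} (hh : h ≤ 2) : ∀ c ∈ listC h, ∀ c' ∈ listC h, Good h c c' ∨ Good h c' c := by
  interval_cases h
  · exact chkAll_sound _ _ chkP0
  · exact chkAll_sound _ _ chkP1
  · exact chkAll_sound _ _ chkP2

theorem leafT7_sound [DecidableEq V] {U : Finset V} {v : ℕ → V} (hv : Lab U 14 v) {c : ℕ}
    (hc : Holds G v (leafT7 c)) : Cov G (U : Set V) 4 := by
  unfold leafT7 at hc
  rw [holds_cond] at hc
  rcases hc with ⟨-, hc⟩ | ⟨-, hc⟩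
  · exact leafPart_sound hc (hv.full rfl)
  rw [holds_cond] at hc
  rcases hc with ⟨-, hc⟩ | ⟨-, hc⟩
  · refine big5_cov hv rfl hc ?_
    intro W _ hW
    exact T5nine (by omega)
  · exact absurd hc not_holds_two

theorem good_cov [DecidableEq V] {Q Q' R : Finset V} {q q' r : ℕ → V} {h c c' : ℕ}
    (hQ : IsK4 G Q) (hQ' : IsK4 G Q') (hq : Lab Q 4 q) (hq' : Lab Q' 4 q')
    (hR : IsR G R h r) (hd : Disjoint Q Q') (hd' : Disjoint (Q ∪ Q') R)
    (ha : Att G q r c) (ha' : Att G q' r c') (hg : Good h c c') :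
    Cov G ((Q ∪ Q' ∪ R : Finset V) : Set V) 4 := by
  obtain ⟨t, ht⟩ := hg
  have hlab : Lab (Q ∪ Q' ∪ R) 14 (cat 8 (cat 4 q q') r) := (hq.cat hq' hd).cat hR.1 hd'
  refine sound_chk ht ?_ (fun c hc => leafT7_sound hlab hc)
  unfold initT7
  rw [holds_lor, holds_lor, holds_lor, holds_lor]
  refine ⟨⟨⟨?_, ?_⟩, ?_⟩, ?_, ?_⟩
  · apply holds_matN (by norm_num)
    intro i hi j hj hij
    have := mat_K4 hQ hq i hi j hj hij
    simp only [Nat.zero_add]
    rw [cat_lt (show i < 8 by omega), cat_lt (show j < 8 by omega), cat_lt hi, cat_lt hj]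
    exact this
  · apply holds_matN (by norm_num)
    intro i hi j hj hij
    have := mat_K4 hQ' hq' i hi j hj hij
    show G.Adj (cat 8 (cat 4 q q') r (4 + i)) (cat 8 (cat 4 q q') r (4 + j)) ↔ _
    rw [cat_lt (show 4 + i < 8 by omega), cat_lt (show 4 + j < 8 by omega), cat_add, cat_add]
    exact this
  · apply holds_matN (by norm_num)
    rw [cat_shift]
    exact hR.2
  · apply holds_codeS (by norm_num) (by norm_num)
    intro i hi t ht
    rw [Nat.zero_add, cat_lt (show i < 8 by omega), cat_lt hi, cat_add]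
    exact ha i hi t ht
  · apply holds_codeS (by norm_num) (by norm_num)
    intro i hi t ht
    rw [cat_lt (show 4 + i < 8 by omega), cat_add, cat_add]
    exact ha' i hi t ht

theorem IsK4.clu {Q : Finset V} (h : IsK4 G Q) : Clu G (Q : Set V) := by
  apply clu_clique
  intro x hx y hy
  by_cases hxy : x = y
  · exact Or.inl hxy
  · exact Or.inr (h.2 x hx y hy hxy)

/-- at most fourteen vertices are covered by four clusters -/
theorem T7fourteen [DecidableEq V] {U : Finset V} (hU : U.card ≤ 14) : Cov G (U : Set V) 4 := by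
  rcases Nat.lt_or_ge U.card 10 with h5 | h5
  · exact (T5nine (by omega)).succ
  obtain ⟨C, c, hCU, hlC, ht⟩ := T2ten (G := G) h5
  have hc : (U \ C).card = U.card - 4 := by rw [Finset.card_sdiff_of_subset hCU, hlC.card]
  rcases Nat.lt_or_ge U.card 14 with h9 | h9
  · exact cov_sdiff (T5nine (by omega)) (ht.clu.mono (lab4_sub hlC))
  have h14 : U.card = 14 := le_antisymm hU h9
  by_contra hcov
  rcases T6ten (G := G) (U := U \ C) (by omega) with h | ⟨Q, hQU, hQ⟩
  · exact hcov (cov_sdiff h (ht.clu.mono (lab4_sub hlC)))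
  have hQU' : Q ⊆ U := hQU.trans Finset.sdiff_subset
  have hc1 : (U \ Q).card = 10 := by rw [Finset.card_sdiff_of_subset hQU', hQ.1, h14]
  rcases T6ten (G := G) (U := U \ Q) hc1 with h | ⟨Q', hQU1, hQ'⟩
  · exact hcov (cov_sdiff h hQ.clu)
  have hQU1' : Q' ⊆ U := hQU1.trans Finset.sdiff_subset
  have hc2 : ((U \ Q) \ Q').card = 6 := by rw [Finset.card_sdiff_of_subset hQU1, hQ'.1, hc1]
  rcases T4six (G := G) (U := (U \ Q) \ Q') hc2 with h | ⟨h, hh, r, hr⟩
  · exact hcov (cov_sdiff (cov_sdiff h hQ'.clu) hQ.clu)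
  have hdQQ' : Disjoint Q Q' := by
    rw [Finset.disjoint_left]
    intro x hx hx'
    exact (Finset.mem_sdiff.1 (hQU1 hx')).2 hx
  have hdQR : Disjoint Q ((U \ Q) \ Q') := by
    rw [Finset.disjoint_left]
    intro x hx hx'
    exact (Finset.mem_sdiff.1 (Finset.mem_sdiff.1 hx').1).2 hx
  have hdQ'R : Disjoint Q' ((U \ Q) \ Q') := by
    rw [Finset.disjoint_left]
    intro x hx hx'
    exact (Finset.mem_sdiff.1 hx').2 hx
  have hUeq : Q ∪ Q' ∪ ((U \ Q) \ Q') = U := by
    ext x
    simp only [Finset.mem_union, Finset.mem_sdiff]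
    constructor
    · rintro ((h | h) | h)
      · exact hQU' h
      · exact hQU1' h
      · exact h.1.1
    · intro hx
      by_cases h1 : x ∈ Q
      · exact Or.inl (Or.inl h1)
      · by_cases h2 : x ∈ Q'
        · exact Or.inl (Or.inr h2)
        · exact Or.inr ⟨⟨hx, h1⟩, h2⟩
  have hn1 : ¬ Cov G ((Q ∪ ((U \ Q) \ Q') : Finset V) : Set V) 3 := by
    intro h
    apply hcov
    refine h.add hQ'.clu ?_
    intro x hx
    rw [← hUeq] at hx
    simp only [Finset.coe_union, Set.mem_union, Finset.mem_coe] at hx ⊢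
    tauto
  have hn2 : ¬ Cov G ((Q' ∪ ((U \ Q) \ Q') : Finset V) : Set V) 3 := by
    intro h
    apply hcov
    refine h.add hQ.clu ?_
    intro x hx
    rw [← hUeq] at hx
    simp only [Finset.coe_union, Set.mem_union, Finset.mem_coe] at hx ⊢
    tauto
  obtain ⟨q, hq, c, hcL, ha⟩ := attach hh hQ hr hdQR hn1
  obtain ⟨q', hq', c', hcL', ha'⟩ := attach hh hQ' hr hdQ'R hn2
  rcases good_list hh c hcL c' hcL' with hg | hg
  · have := good_cov hQ hQ' hq hq' hr hdQQ' (Finset.disjoint_union_left.2 ⟨hdQR, hdQ'R⟩) ha ha' hg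
    rw [hUeq] at this
    exact hcov this
  · have := good_cov hQ' hQ hq' hq hr hdQQ'.symm (Finset.disjoint_union_left.2 ⟨hdQ'R, hdQR⟩) ha' ha
      hg
    rw [Finset.union_comm Q' Q, hUeq] at this
    exact hcov this

end Pool.Agent.R59.NS
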